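import Mathlib

set_option autoImplicit false

namespace Pool.Agent.H.MP_b892c7_gt

/-- Data of the scale recursion at a fixed point. -/
structure Scales (C : ℝ) (T e g J : ℕ → ℝ) : Prop where
  Tpos : ∀ k, 0 < T k
  Tsucc : ∀ k, T (k + 1) = 2 * T k
  e_nonneg : ∀ k, 0 ≤ e k
  g_nonneg : ∀ k, 0 ≤ g k
  J_nonneg : ∀ k, 0 ≤ J k
  h_nonneg : ∀ k, 2 * g (k + 1) ≤ g k
  e_anti : ∀ k, e (k + 1) ≤ e k
  g_le : ∀ k, e k ≤ 1 / 2 → g k ≤ 2 * e k
  growth : ∀ k, g (k + 1) - 2 * g (k + 2) ≤ g (k + 2) - 2 * g (k + 3) + 2 * J (k + 2)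
  core : ∀ k, e (k + 1) ≤ 1 / 2 →
    g (k + 1) - 2 * g (k + 2) ≤ C * (J (k + 1) + J (k + 2)) * e k

variable {C : ℝ} {T e g J : ℕ → ℝ}

/-- The weight of scale `j` in the embedding. -/
def wt (T e J : ℕ → ℝ) (j : ℕ) : ℝ := T j * (J (j + 1) + J (j + 2)) * e j

lemma Scales.wt_nonneg (h : Scales C T e g J) (j : ℕ) : 0 ≤ wt T e J j :=
  mul_nonneg (mul_nonneg (h.Tpos j).le (add_nonneg (h.J_nonneg _) (h.J_nonneg _)))
    (h.e_nonneg j)

theorem Scales.claim1 (h : Scales C T e g J) : ∀ m k : ℕ, e (k + 1) ≤ 1 / 2 →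
    T (k + 1) * g (k + 1) ≤ 2 * C * ∑ i ∈ Finset.range m, wt T e J (k + i)
      + 2 * (T (k + 1 + m) * e (k + 1 + m)) := by
  intro m
  induction m with
  | zero =>
    intro k hk
    have := h.g_le _ hk
    have := mul_le_mul_of_nonneg_left this (h.Tpos (k + 1)).le
    simp only [Finset.range_zero, Finset.sum_empty, mul_zero, zero_add, add_zero]
    linarith
  | succ m ih =>
    intro k hk
    have h1 := ih (k + 1) ((h.e_anti (k + 1)).trans hk)
    have h2 := h.core k hk
    have h3 := mul_le_mul_of_nonneg_left h2 (h.Tpos (k + 1)).le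
    have h4 := h.Tsucc (k + 1)
    have h5 := h.Tsucc k
    have s2 : ∑ i ∈ Finset.range (m + 1), wt T e J (k + i)
        = ∑ i ∈ Finset.range m, wt T e J (k + 1 + i) + wt T e J k := by
      rw [Finset.sum_range_succ']
      congr 1
      exact Finset.sum_congr rfl fun i _ => by congr 1; ring
    rw [s2]
    rw [show k + 1 + (m + 1) = k + 1 + 1 + m by ring]
    have h6 : wt T e J k = T k * (J (k + 1) + J (k + 2)) * e k := rfl
    rw [h6]
    rw [h4] at h1
    have h7 : T (k + 1) * (C * (J (k + 1) + J (k + 2)) * e k)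
        = 2 * C * (T k * (J (k + 1) + J (k + 2)) * e k) := by rw [h5]; ring
    rw [h7] at h3
    have h8 : k + 1 + 1 = k + 2 := rfl
    rw [h8] at *
    linarith

theorem Scales.claim2 (h : Scales C T e g J) (hC : 0 ≤ C) : ∀ m k : ℕ,
    e (k + 1 + m) ≤ 1 / 2 →
    T (k + 1) * g (k + 1) + T (k + 1) * (g (k + 1) - 2 * g (k + 2)) ≤
      4 * C * ∑ i ∈ Finset.range m, wt T e J (k + i)
      + 8 * ∑ i ∈ Finset.range m, wt T e J (k + 1 + i)
      + 4 * (T (k + 1 + m) * e (k + 1 + m)) := by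
  intro m
  induction m with
  | zero =>
    intro k hk
    have h0 := h.claim1 0 k hk
    have h1 := h.g_nonneg (k + 2)
    have h2 := mul_nonneg (h.Tpos (k + 1)).le h1
    simp only [Finset.range_zero, Finset.sum_empty, mul_zero, zero_add, add_zero] at h0 ⊢
    linarith
  | succ m ih =>
    intro k hk
    have hw1 : 0 ≤ ∑ i ∈ Finset.range (m + 1), wt T e J (k + 1 + i) :=
      Finset.sum_nonneg fun i _ => h.wt_nonneg _
    by_cases hc : e (k + 1) ≤ 1 / 2
    · have h0 := h.claim1 (m + 1) k hc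
      have h1 := h.g_nonneg (k + 2)
      have h2 := mul_nonneg (h.Tpos (k + 1)).le h1
      linarith
    · push Not at hc
      have h1 := ih (k + 1) (by
        rw [show k + 1 + 1 + m = k + 1 + (m + 1) by ring]; exact hk)
      have h2 := h.growth k
      have h4 := h.Tsucc (k + 1)
      have h8 : k + 1 + 1 = k + 2 := rfl
      have h9 : k + 1 + 2 = k + 3 := rfl
      rw [h8, h9] at h1
      rw [h8] at h4
      rw [show k + 1 + (m + 1) = k + 2 + m by ring]
      -- the new term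
      have h5 : T (k + 2) * J (k + 2) ≤ 4 * wt T e J (k + 1) := by
        have a1 : wt T e J (k + 1) = T (k + 1) * (J (k + 2) + J (k + 3)) * e (k + 1) := rfl
        rw [a1, h4]
        have p1 := h.Tpos (k + 1)
        have p2 := h.J_nonneg (k + 2)
        have p3 := h.J_nonneg (k + 3)
        have q1 : 0 ≤ T (k + 1) * J (k + 2) := mul_nonneg p1.le p2
        have q2 : 0 ≤ T (k + 1) * J (k + 3) * e (k + 1) :=
          mul_nonneg (mul_nonneg p1.le p3) (h.e_nonneg _)
        nlinarith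
      have h6 := mul_le_mul_of_nonneg_left h2 (h.Tpos (k + 1)).le
      have s1 : ∑ i ∈ Finset.range (m + 1), wt T e J (k + 1 + i)
          = ∑ i ∈ Finset.range m, wt T e J (k + 2 + i) + wt T e J (k + 1) := by
        rw [Finset.sum_range_succ']
        congr 1
        exact Finset.sum_congr rfl fun i _ => by congr 1; ring
      have s2 : ∑ i ∈ Finset.range (m + 1), wt T e J (k + i)
          = ∑ i ∈ Finset.range m, wt T e J (k + 1 + i) + wt T e J k := by
        rw [Finset.sum_range_succ']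
        congr 1
        exact Finset.sum_congr rfl fun i _ => by congr 1; ring
      rw [s1, s2]
      have s3 : 0 ≤ wt T e J k := h.wt_nonneg k
      have s4 : 0 ≤ C * wt T e J k := mul_nonneg hC s3
      rw [h4] at h1 h5
      nlinarith

/-- The summed bound. -/
theorem Scales.total (h : Scales C T e g J) (hC : 0 ≤ C) (m : ℕ) (hN : e (m + 1) ≤ 1 / 2) :
    T 1 * g 1 ≤ (4 * C + 8) * (∑ j ∈ Finset.range (m + 1), wt T e J j
      + T (m + 1) * e (m + 1)) := by
  have h0 := h.claim2 hC m 0 (by rw [show 0 + 1 + m = m + 1 by ring]; exact hN)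
  rw [show 0 + 1 + m = m + 1 by ring] at h0
  have h1 := h.h_nonneg 1
  have h2 : 0 ≤ T 1 * (g 1 - 2 * g 2) := mul_nonneg (h.Tpos 1).le (by linarith)
  simp only [zero_add] at h0
  have s1 : ∑ i ∈ Finset.range m, wt T e J i ≤ ∑ j ∈ Finset.range (m + 1), wt T e J j := by
    rw [Finset.sum_range_succ]; linarith [h.wt_nonneg m]
  have s2 : ∑ i ∈ Finset.range m, wt T e J (1 + i) ≤ ∑ j ∈ Finset.range (m + 1), wt T e J j := by
    rw [Finset.sum_range_succ']
    have : ∑ i ∈ Finset.range m, wt T e J (1 + i) = ∑ i ∈ Finset.range m, wt T e J (i + 1) :=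
      Finset.sum_congr rfl fun i _ => by rw [add_comm]
    rw [this]
    linarith [h.wt_nonneg 0]
  have s3 : 0 ≤ T (m + 1) * e (m + 1) := mul_nonneg (h.Tpos _).le (h.e_nonneg _)
  have s4 := mul_le_mul_of_nonneg_left s1 hC
  have s5 : 0 ≤ C * (T (m + 1) * e (m + 1)) := mul_nonneg hC s3
  nlinarith

end Pool.Agent.H.MP_b892c7_gt
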