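import Mathlib

set_option autoImplicit false
set_option linter.unusedSectionVars false

namespace Pool.Agent.H.MP_b892c7_gt

open Real

variable {d : Type*} {E : Type*} [NormedAddCommGroup E] [InnerProductSpace ℝ E]

/-- All Gaussian sums over the image of the homomorphism `φ` converge. -/
def GS (φ : (d → ℤ) →+ E) : Prop :=
  ∀ a : ℝ, 0 < a → Summable fun m => exp (-a * ‖φ m‖ ^ 2)

/-- The Gaussian sum `∑ exp(-a |x - φ m|^2)` over the points `φ m`. -/
noncomputable def th (φ : (d → ℤ) →+ E) (a : ℝ) (x : E) : ℝ :=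
  ∑' m, exp (-a * ‖x - φ m‖ ^ 2)

variable {φ : (d → ℤ) →+ E}

lemma norm_sq_le_two (x y : E) : ‖y‖ ^ 2 ≤ 2 * ‖x - y‖ ^ 2 + 2 * ‖x‖ ^ 2 := by
  have h1 : ‖y‖ ≤ ‖x - y‖ + ‖x‖ := by
    have := norm_sub_le x (x - y)
    rw [sub_sub_cancel] at this
    linarith
  have h2 : 0 ≤ ‖y‖ := norm_nonneg _
  nlinarith [sq_nonneg (‖x - y‖ - ‖x‖), norm_nonneg (x - y), norm_nonneg x]

lemma term_le (a : ℝ) (ha : 0 < a) (x y : E) :
    exp (-a * ‖x - y‖ ^ 2) ≤ exp (a * ‖x‖ ^ 2) * exp (-(a / 2) * ‖y‖ ^ 2) := by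
  rw [← exp_add]
  apply exp_le_exp.mpr
  nlinarith [norm_sq_le_two x y]

lemma GS.summable (h : GS φ) {a : ℝ} (ha : 0 < a) (x : E) :
    Summable fun m => exp (-a * ‖x - φ m‖ ^ 2) := by
  refine Summable.of_nonneg_of_le (fun _ => (exp_pos _).le) (fun m => term_le a ha x (φ m)) ?_
  exact (h (a / 2) (by positivity)).mul_left _

lemma th_pos (h : GS φ) {a : ℝ} (ha : 0 < a) (x : E) : 0 < th φ a x :=
  (h.summable ha x).tsum_pos (fun _ => (exp_pos _).le) 0 (exp_pos _)

lemma th_add (a : ℝ) (x : E) (m : d → ℤ) : th φ a (x + φ m) = th φ a x := by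
  unfold th
  rw [← (Equiv.addRight m).tsum_eq]
  refine tsum_congr fun k => ?_
  simp [map_add]

lemma th_sub (a : ℝ) (x : E) (m : d → ℤ) : th φ a (x - φ m) = th φ a x := by
  have := th_add (φ := φ) a (x - φ m) m
  rw [sub_add_cancel] at this
  exact this.symm

lemma th_neg (a : ℝ) (x : E) : th φ a (-x) = th φ a x := by
  unfold th
  rw [← (Equiv.neg (d → ℤ)).tsum_eq]
  refine tsum_congr fun k => ?_
  have : -x - φ (-k) = -(x - φ k) := by rw [map_neg]; abel
  simp only [Equiv.neg_apply]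
  rw [this, norm_neg]

/-- The parity class of an integer vector. -/
def red (m : d → ℤ) : d → ZMod 2 := fun i => (m i : ZMod 2)

/-- The representative with coordinates `0` and `1` of a parity class. -/
def lft (c : d → ZMod 2) : d → ℤ := fun i => ((c i).val : ℤ)

/-- Every integer vector is uniquely `2 m + lft c`. -/
def e1 : ((d → ZMod 2) × (d → ℤ)) ≃ (d → ℤ) where
  toFun p := p.2 + p.2 + lft p.1
  invFun m := (red m, fun i => m i / 2)
  left_inv := by
    rintro ⟨c, m⟩
    ext i
    · simp only [red, lft, Pi.add_apply]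
      have h2 : ((m i + m i + ((c i).val : ℤ) : ℤ) : ZMod 2) = c i := by
        push_cast
        have : (m i : ZMod 2) + (m i : ZMod 2) = 0 := by
          rw [← two_mul]
          have : (2 : ZMod 2) = 0 := by decide
          rw [this, zero_mul]
        rw [this, zero_add, ZMod.natCast_val, ZMod.cast_id]
      exact h2
    · simp only [lft, Pi.add_apply]
      have h1 : (c i).val < 2 := ZMod.val_lt _
      omega
  right_inv := by
    intro m
    ext i
    simp only [red, lft, Pi.add_apply]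
    have : (((m i : ZMod 2)).val : ℤ) = m i % 2 := by
      rw [ZMod.val_intCast]
      rfl
    rw [this]
    omega

@[simp] lemma e1_apply (c : d → ZMod 2) (m : d → ℤ) : e1 (c, m) = m + m + lft c := rfl

/-- Pairs of integer vectors in terms of the common parity class of sum and difference. -/
def e2 : ((d → ZMod 2) × (d → ℤ) × (d → ℤ)) ≃ (d → ℤ) × (d → ℤ) where
  toFun p := (p.2.1 + p.2.2 + lft p.1, p.2.1 - p.2.2)
  invFun q := ((e1.symm (q.1 - q.2)).1, q.2 + (e1.symm (q.1 - q.2)).2,
    (e1.symm (q.1 - q.2)).2)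
  left_inv := by
    rintro ⟨c, a, b⟩
    have h : a + b + lft c - (a - b) = e1 (c, b) := by
      rw [e1_apply]; abel
    simp only [h, Equiv.symm_apply_apply]
    simp
  right_inv := by
    rintro ⟨y, z⟩
    simp only
    set p := e1.symm (y - z) with hp
    have h : e1 p = y - z := by rw [hp, Equiv.apply_symm_apply]
    have h' : p.2 + p.2 + lft p.1 = y - z := h
    ext i
    · have := congrFun h' i
      simp only [Pi.add_apply, Pi.sub_apply] at this ⊢
      linarith
    · simp

@[simp] lemma e2_apply (c : d → ZMod 2) (a b : d → ℤ) :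
    e2 (c, a, b) = (a + b + lft c, a - b) := rfl

lemma lft_add (c c' : d → ZMod 2) :
    ∃ m : d → ℤ, lft (c + c') = lft c + lft c' - (m + m) := by
  refine ⟨fun i => (((c i).val : ℤ) + (c' i).val) / 2, ?_⟩
  ext i
  simp only [lft, Pi.add_apply, Pi.sub_apply]
  have h : ((c i + c' i).val : ℤ) = (((c i).val : ℤ) + (c' i).val) % 2 := by
    rw [ZMod.val_add]; push_cast; rfl
  rw [h]
  omega

lemma lft_zero : lft (0 : d → ZMod 2) = 0 := by
  ext i
  simp [lft]

lemma red_lft (c : d → ZMod 2) : red (lft c) = c := by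
  ext i
  simp only [red, lft]
  push_cast
  rw [ZMod.natCast_val, ZMod.cast_id]

lemma lft_red (m : d → ℤ) : ∃ k : d → ℤ, lft (red m) = m - (k + k) := by
  refine ⟨(e1.symm m).2, ?_⟩
  have h : e1 (e1.symm m) = m := Equiv.apply_symm_apply _ _
  have h2 : (e1.symm m).1 = red m := rfl
  have h3 : (e1.symm m).2 + (e1.symm m).2 + lft (e1.symm m).1 = m := h
  rw [h2] at h3
  rw [eq_sub_iff_add_eq, add_comm]
  exact h3

end Pool.Agent.H.MP_b892c7_gt
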