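import Pool.Agent.H.MP_b892c7_gt.Kappa

set_option autoImplicit false
set_option linter.unusedSectionVars false

namespace Pool.Agent.H.MP_b892c7_gt

open Real

variable {d : Type*} [Fintype d] [DecidableEq d]
variable {E : Type*} [NormedAddCommGroup E] [InnerProductSpace ℝ E]
variable {φ : (d → ℤ) →+ E}

lemma th_zero (s : ℝ) : th φ s 0 = ∑' w, exp (-s * ‖φ w‖ ^ 2) := by
  unfold th
  simp

lemma GS.summable_mul (h : GS φ) {s : ℝ} (hs : 0 < s) {f : (d → ℤ) → ℝ} {M : ℝ}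
    (hf : ∀ w, |f w| ≤ M) : Summable fun w => exp (-s * ‖φ w‖ ^ 2) * f w := by
  refine Summable.of_norm_bounded ((h s hs).mul_right M) fun w => ?_
  rw [norm_mul, Real.norm_eq_abs, Real.norm_eq_abs, abs_of_pos (exp_pos _)]
  exact mul_le_mul_of_nonneg_left (hf w) (exp_pos _).le

/-- The shear of pairs. -/
def e3 : ((d → ℤ) × (d → ℤ)) ≃ (d → ℤ) × (d → ℤ) where
  toFun p := (p.1 - p.2, p.2)
  invFun p := (p.1 + p.2, p.2)
  left_inv := by rintro ⟨a, b⟩; simp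
  right_inv := by rintro ⟨a, b⟩; simp

lemma GS.summable_pair (h : GS φ) {s : ℝ} (hs : 0 < s) {f : (d → ℤ) × (d → ℤ) → ℝ} {M : ℝ}
    (hf : ∀ w, |f w| ≤ M) :
    Summable fun p : (d → ℤ) × (d → ℤ) =>
      exp (-s * ‖φ p.1‖ ^ 2) * exp (-s * ‖φ p.2‖ ^ 2) * f p := by
  have h1 := (h s hs).mul_of_nonneg (h s hs) (fun _ => (exp_pos _).le) (fun _ => (exp_pos _).le)
  refine Summable.of_norm_bounded (h1.mul_right M) fun w => ?_
  rw [norm_mul, norm_mul, Real.norm_eq_abs, Real.norm_eq_abs, Real.norm_eq_abs,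
    abs_of_pos (exp_pos _), abs_of_pos (exp_pos _)]
  exact mul_le_mul_of_nonneg_left (hf w) (by positivity)

/-- The law of the sum of two independent discrete Gaussians. -/
theorem conv (h : GS φ) {s : ℝ} (hs : 0 < s) {H : (d → ℤ) → ℝ} {M : ℝ} (hH : ∀ w, |H w| ≤ M) :
    ∑' p : (d → ℤ) × (d → ℤ),
      exp (-(2 * s) * ‖φ p.1‖ ^ 2) * exp (-(2 * s) * ‖φ p.2‖ ^ 2) * H (p.1 + p.2)
    = ∑' W, exp (-s * ‖φ W‖ ^ 2) * (th φ (4 * s) ((1 / 2 : ℝ) • φ W) * H W) := by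
  have hsum := h.summable_pair (show 0 < 2 * s by positivity)
    (f := fun p => H (p.1 + p.2)) (fun w => hH _)
  rw [← e3.tsum_eq]
  have key : ∀ p : (d → ℤ) × (d → ℤ),
      exp (-(2 * s) * ‖φ (e3 p).1‖ ^ 2) * exp (-(2 * s) * ‖φ (e3 p).2‖ ^ 2)
        * H ((e3 p).1 + (e3 p).2)
      = exp (-s * ‖φ p.1‖ ^ 2) * H p.1 * exp (-(4 * s) * ‖(1 / 2 : ℝ) • φ p.1 - φ p.2‖ ^ 2) := by
    rintro ⟨W, m⟩
    have e1 : (e3 (W, m)).1 = W - m := rfl
    have e2 : (e3 (W, m)).2 = m := rfl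
    rw [e1, e2, sub_add_cancel, mul_right_comm (exp (-s * ‖φ W‖ ^ 2)), ← exp_add, ← exp_add]
    congr 2
    have hp := parallelogram' ((1 / 2 : ℝ) • φ W) ((1 / 2 : ℝ) • φ W - φ m)
    have h1 : (1 / 2 : ℝ) • φ W + ((1 / 2 : ℝ) • φ W - φ m) = φ (W - m) := by
      rw [map_sub]; module
    have h2 : (1 / 2 : ℝ) • φ W - ((1 / 2 : ℝ) • φ W - φ m) = φ m := by module
    have h3 : ‖(1 / 2 : ℝ) • φ W‖ = 1 / 2 * ‖φ W‖ := by
      rw [norm_smul]; norm_num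
    rw [h1, h2, h3] at hp
    linear_combination (-(2 * s)) * hp
  simp_rw [key]
  have hs2 : Summable fun p : (d → ℤ) × (d → ℤ) =>
      exp (-s * ‖φ p.1‖ ^ 2) * H p.1 * exp (-(4 * s) * ‖(1 / 2 : ℝ) • φ p.1 - φ p.2‖ ^ 2) := by
    rw [← summable_congr key]
    exact e3.summable_iff.mpr hsum
  rw [hs2.tsum_prod]
  refine tsum_congr fun W => ?_
  simp only
  rw [tsum_mul_left]
  unfold th
  ring

/-- `1 - cos 2π⟨w,x⟩`. -/
noncomputable def hh (φ : (d → ℤ) →+ E) (x : E) (w : d → ℤ) : ℝ :=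
  1 - cos (2 * π * inner ℝ (φ w) x)

lemma hh_nonneg (x : E) (w : d → ℤ) : 0 ≤ hh φ x w := by
  unfold hh; linarith [cos_le_one (2 * π * inner ℝ (φ w) x)]

lemma hh_le_two (x : E) (w : d → ℤ) : hh φ x w ≤ 2 := by
  unfold hh; linarith [neg_one_le_cos (2 * π * inner ℝ (φ w) x)]

lemma hh_abs (x : E) (w : d → ℤ) : |hh φ x w| ≤ 2 := by
  rw [abs_of_nonneg (hh_nonneg x w)]; exact hh_le_two x w

lemma one_sub_cos_eq (θ : ℝ) : 1 - cos θ = 2 * sin (θ / 2) ^ 2 := by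
  have := cos_two_mul (θ / 2)
  rw [show 2 * (θ / 2) = θ by ring] at this
  have h2 := sin_sq_add_cos_sq (θ / 2)
  linarith

lemma hh_le (x : E) (w m : d → ℤ) : hh φ x w ≤ 2 * hh φ x (w + m) + 2 * hh φ x m := by
  unfold hh
  rw [map_add, inner_add_left]
  rw [one_sub_cos_eq, one_sub_cos_eq, one_sub_cos_eq]
  set P := 2 * π * (inner ℝ (φ w) x + inner ℝ (φ m) x) / 2
  set Q := 2 * π * inner ℝ (φ m) x / 2
  have : 2 * π * inner ℝ (φ w) x / 2 = P - Q := by simp only [P, Q]; ring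
  rw [this, sin_sub]
  have h1 := sin_sq_add_cos_sq P
  have h2 := sin_sq_add_cos_sq Q
  have h3 : (sin P * cos Q - cos P * sin Q) ^ 2 ≤ 2 * (sin P ^ 2 * cos Q ^ 2)
      + 2 * (cos P ^ 2 * sin Q ^ 2) := by
    have := sq_nonneg (sin P * cos Q + cos P * sin Q)
    linarith [this, show (sin P * cos Q - cos P * sin Q) ^ 2
      = 2 * (sin P ^ 2 * cos Q ^ 2) + 2 * (cos P ^ 2 * sin Q ^ 2)
        - (sin P * cos Q + cos P * sin Q) ^ 2 by ring]
  have h4 : sin P ^ 2 * cos Q ^ 2 ≤ sin P ^ 2 :=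
    mul_le_of_le_one_right (sq_nonneg _) (by linarith [sq_nonneg (sin Q)])
  have h5 : cos P ^ 2 * sin Q ^ 2 ≤ sin Q ^ 2 :=
    mul_le_of_le_one_left (sq_nonneg _) (by linarith [sq_nonneg (sin P)])
  linarith

/-- Unnormalized energy. -/
noncomputable def NN (φ : (d → ℤ) →+ E) (s : ℝ) (x : E) : ℝ :=
  ∑' w, exp (-s * ‖φ w‖ ^ 2) * hh φ x w

/-- `e_s(x)` in the dual form. -/
noncomputable def ee (φ : (d → ℤ) →+ E) (s : ℝ) (x : E) : ℝ := NN φ s x / th φ s 0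

lemma NN_nonneg (s : ℝ) (x : E) : 0 ≤ NN φ s x :=
  tsum_nonneg fun w => mul_nonneg (exp_pos _).le (hh_nonneg x w)

lemma sin_tsum_zero (s : ℝ) (x : E) :
    ∑' w, exp (-s * ‖φ w‖ ^ 2) * sin (2 * π * inner ℝ (φ w) x) = 0 := by
  have e : ∑' w, exp (-s * ‖φ w‖ ^ 2) * sin (2 * π * inner ℝ (φ w) x)
      = ∑' w, -(exp (-s * ‖φ w‖ ^ 2) * sin (2 * π * inner ℝ (φ w) x)) := by
    rw [← (Equiv.neg (d → ℤ)).tsum_eq]
    refine tsum_congr fun w => ?_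
    simp only [Equiv.neg_apply]
    rw [map_neg, norm_neg, inner_neg_left, mul_neg, sin_neg, mul_neg]
  rw [tsum_neg] at e
  linarith

lemma cos_tsum (h : GS φ) {s : ℝ} (hs : 0 < s) (x : E) :
    ∑' w, exp (-s * ‖φ w‖ ^ 2) * cos (2 * π * inner ℝ (φ w) x) = th φ s 0 - NN φ s x := by
  have h1 := h.summable_mul hs (f := fun _ => 1) (M := 1) (fun w => by simp)
  have h2 := h.summable_mul hs (hh_abs (φ := φ) x)
  rw [th_zero]
  unfold NN
  have h1' : Summable fun w => exp (-s * ‖φ w‖ ^ 2) := h s hs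
  rw [← h1'.tsum_sub h2]
  refine tsum_congr fun w => ?_
  unfold hh
  ring

/-- Squaring identity for the dual sum. -/
theorem cos_sq (h : GS φ) {s : ℝ} (hs : 0 < s) (x : E) :
    (th φ (2 * s) 0 - NN φ (2 * s) x) ^ 2 =
      ∑' W, exp (-s * ‖φ W‖ ^ 2) * (th φ (4 * s) ((1 / 2 : ℝ) • φ W) *
        cos (2 * π * inner ℝ (φ W) x)) := by
  have h2s : 0 < 2 * s := by positivity
  rw [← conv h hs (H := fun W => cos (2 * π * inner ℝ (φ W) x)) (M := 1)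
    (fun w => abs_cos_le_one _)]
  have hc := h.summable_mul h2s (f := fun w => cos (2 * π * inner ℝ (φ w) x)) (M := 1)
    (fun w => abs_cos_le_one _)
  have hsn := h.summable_mul h2s (f := fun w => sin (2 * π * inner ℝ (φ w) x)) (M := 1)
    (fun w => abs_sin_le_one _)
  have hcc : Summable fun p : (d → ℤ) × (d → ℤ) =>
      (exp (-(2 * s) * ‖φ p.1‖ ^ 2) * cos (2 * π * inner ℝ (φ p.1) x)) *
      (exp (-(2 * s) * ‖φ p.2‖ ^ 2) * cos (2 * π * inner ℝ (φ p.2) x)) :=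
    summable_mul_of_summable_norm hc.norm hc.norm
  have hss : Summable fun p : (d → ℤ) × (d → ℤ) =>
      (exp (-(2 * s) * ‖φ p.1‖ ^ 2) * sin (2 * π * inner ℝ (φ p.1) x)) *
      (exp (-(2 * s) * ‖φ p.2‖ ^ 2) * sin (2 * π * inner ℝ (φ p.2) x)) :=
    summable_mul_of_summable_norm hsn.norm hsn.norm
  have e1 := hc.tsum_mul_tsum hc hcc
  have e2 := hsn.tsum_mul_tsum hsn hss
  rw [cos_tsum h h2s] at e1
  rw [sin_tsum_zero] at e2
  have e3 := hcc.tsum_sub hss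
  rw [← e1, ← e2] at e3
  rw [sq]
  have e4 : (th φ (2 * s) 0 - NN φ (2 * s) x) * (th φ (2 * s) 0 - NN φ (2 * s) x)
    = (th φ (2 * s) 0 - NN φ (2 * s) x) * (th φ (2 * s) 0 - NN φ (2 * s) x) - 0 * 0 := by ring
  rw [e4, ← e3]
  refine tsum_congr fun p => ?_
  rw [map_add, inner_add_left, mul_add, cos_add]
  ring

theorem one_sq (h : GS φ) {s : ℝ} (hs : 0 < s) :
    th φ (2 * s) 0 ^ 2 = ∑' W, exp (-s * ‖φ W‖ ^ 2) * th φ (4 * s) ((1 / 2 : ℝ) • φ W) := by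
  have h1 := cos_sq h hs (0 : E)
  have h2 : NN φ (2 * s) 0 = 0 := by
    unfold NN hh
    simp
  rw [h2, sub_zero] at h1
  rw [h1]
  refine tsum_congr fun W => ?_
  simp

end Pool.Agent.H.MP_b892c7_gt
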