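import Pool.Agent.H.MP_b892c7_gt.DualMain

set_option autoImplicit false
set_option linter.unusedSectionVars false

namespace Pool.Agent.H.MP_b892c7_gt

open Real

variable {d : Type*} [Fintype d] [DecidableEq d]
variable {E : Type*} [NormedAddCommGroup E] [InnerProductSpace ℝ E]
variable {φ : (d → ℤ) →+ E}

lemma NN_eq (h : GS φ) {s : ℝ} (hs : 0 < s) (x : E) : NN φ s x = ee φ s x * th φ s 0 := by
  unfold ee
  rw [div_mul_cancel₀ _ (th_pos h hs _).ne']

lemma ee_nonneg (h : GS φ) {s : ℝ} (hs : 0 < s) (x : E) : 0 ≤ ee φ s x :=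
  div_nonneg (NN_nonneg _ _) (th_pos h hs _).le

lemma th_half_eq (h : GS φ) {b : ℝ} (hb : 0 < b) (w : d → ℤ) :
    th φ b ((1 / 2 : ℝ) • φ w) = kp φ b (red w) * th φ b 0 := by
  unfold kp
  rw [div_mul_cancel₀ _ (th_pos h hb _).ne', nc_zero_red]

lemma NN_le (h : GS φ) {s : ℝ} (hs : 0 < s) (x : E) : NN φ s x ≤ 2 * th φ s 0 := by
  rw [th_zero, ← tsum_mul_left]
  have h1 := h s hs
  exact Summable.tsum_le_tsum (fun w => by
    rw [mul_comm 2]
    exact mul_le_mul_of_nonneg_left (hh_le_two _ _) (exp_pos _).le)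
    (h.summable_mul hs (hh_abs x)) (h1.mul_left 2)

/-- The energy of the bad classes is small. -/
theorem SB_le (h : GS φ) {s : ℝ} (hs : 0 < s) (x : E)
    (hD : 32 * DD φ (4 * s) ≤ AA φ (4 * s)) (hD' : 32 * DD φ (2 * s) ≤ AA φ (2 * s)) :
    SB φ s x ≤ (9 * (DD φ (2 * s) / AA φ (2 * s)) * ee φ (s / 2) x +
      (64 / 15) * (DD φ (4 * s) / AA φ (4 * s)) * ee φ s x) * th φ s 0 := by
  have h4 : 0 < 4 * s := by positivity
  have h2 : 0 < 2 * s := by positivity
  have hh2 : 0 < s / 2 := by positivity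
  have Z0 := th_pos h hs (0 : E)
  have Z2 := th_pos h h2 (0 : E)
  have Z4 := th_pos h h4 (0 : E)
  have Zh := th_pos h hh2 (0 : E)
  have A4 := AA_pos h h4
  have A2 := AA_pos h h2
  have D4 := DD_nonneg h h4
  have D2 := DD_nonneg h h2
  have hp := bad_pair h hs x hD
  have hb := bad_le h hs
  have N0 := NN_nonneg (φ := φ) s x
  have Nh := NN_nonneg (φ := φ) (s / 2) x
  set PB := ∑' w, exp (-s * ‖φ w‖ ^ 2) * bd φ (4 * s) (red w) with hPB
  set δ := DD φ (4 * s) / AA φ (4 * s) with hδ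
  set δ' := DD φ (2 * s) / AA φ (2 * s) with hδ'
  have hδ0 : 0 ≤ δ := div_nonneg D4 A4.le
  have hδ0' : 0 ≤ δ' := div_nonneg D2 A2.le
  have hδ1 : δ ≤ 1 / 32 := by rw [hδ, div_le_iff₀ A4]; linarith
  have hδ1' : δ' ≤ 1 / 32 := by rw [hδ', div_le_iff₀ A2]; linarith
  -- PB ≤ 2 δ Z
  have hPB1 : PB ≤ 2 * δ * th φ s 0 := by
    refine hb.trans (le_of_eq ?_)
    rw [← AA_eq h hs, hδ]
    field_simp
  have hSB0 : 0 ≤ SB φ s x := tsum_nonneg fun w =>
    mul_nonneg (exp_pos _).le (mul_nonneg (bd_nonneg _ _) (hh_nonneg _ _))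
  -- T1
  have hT1 : ∑' W, exp (-(s / 2) * ‖φ W‖ ^ 2) * (th φ (2 * s) ((1 / 2 : ℝ) • φ W) *
        (bd φ (4 * s) (red W) * hh φ x W)) ≤ 4 * δ' * th φ (2 * s) 0 * NN φ (s / 2) x := by
    unfold NN
    rw [← tsum_mul_left]
    have hS1 : Summable fun W => exp (-(s / 2) * ‖φ W‖ ^ 2) *
        (th φ (2 * s) ((1 / 2 : ℝ) • φ W) * (bd φ (4 * s) (red W) * hh φ x W)) := by
      refine h.summable_mul hh2 (M := th φ (2 * s) 0 * 2) fun w => ?_
      rw [abs_mul, abs_of_pos (th_pos h h2 _)]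
      exact mul_le_mul (half_le h h2 w) (bdhh_abs _ _ _) (abs_nonneg _) Z2.le
    refine Summable.tsum_le_tsum (fun W => ?_) hS1
      ((h.summable_mul hh2 (hh_abs x)).mul_left _)
    have key : th φ (2 * s) ((1 / 2 : ℝ) • φ W) * (bd φ (4 * s) (red W) * hh φ x W)
        ≤ 4 * δ' * th φ (2 * s) 0 * hh φ x W := by
      have n1 := hh_nonneg (φ := φ) x W
      by_cases c1 : kp φ (4 * s) (red W) ≤ 1 / 2
      · have e1 : bd φ (4 * s) (red W) = 1 := if_pos c1
        rw [e1, one_mul, th_half_eq h h2]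
        apply mul_le_mul_of_nonneg_right _ n1
        apply mul_le_mul_of_nonneg_right _ Z2.le
        have := bad_fine h hs hD (red W) c1
        rw [hδ', mul_div_assoc', le_div_iff₀ A2]
        exact this
      · have e1 : bd φ (4 * s) (red W) = 0 := if_neg c1
        rw [e1]
        have : 0 ≤ 4 * δ' * th φ (2 * s) 0 * hh φ x W := by positivity
        linarith
    calc exp (-(s / 2) * ‖φ W‖ ^ 2) *
        (th φ (2 * s) ((1 / 2 : ℝ) • φ W) * (bd φ (4 * s) (red W) * hh φ x W))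
        ≤ exp (-(s / 2) * ‖φ W‖ ^ 2) * (4 * δ' * th φ (2 * s) 0 * hh φ x W) :=
          mul_le_mul_of_nonneg_left key (exp_pos _).le
      _ = _ := by ring
  -- th(2s) * th(s/2) ≤ (32/31) Z^2
  have hE1 : th φ (2 * s) 0 * th φ (s / 2) 0 ≤ (32 / 31) * th φ s 0 ^ 2 := by
    have e1 := AA_eq h hh2
    have e2 := AD_eq h hh2
    rw [show 4 * (s / 2) = 2 * s by ring] at e1 e2
    rw [show 2 * (s / 2) = s by ring] at e2
    rw [← e1, ← e2]
    have : 0 < th φ (2 * s) 0 ^ 2 := by positivity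
    nlinarith
  rw [NN_eq h hh2] at hT1
  rw [NN_eq h hs] at hp
  have he := ee_nonneg h hs x
  have heh := ee_nonneg h hh2 x
  set Z := th φ s 0
  set eh := ee φ (s / 2) x
  set e := ee φ s x
  have hZ : (15 / 16) * Z ≤ Z - PB := by nlinarith
  have hmain : SB φ s x * ((15 / 16) * Z) ≤
      (8 * (32 / 31) * δ' * eh + 4 * δ * e) * Z ^ 2 := by
    calc SB φ s x * ((15 / 16) * Z) ≤ SB φ s x * (Z - PB) :=
          mul_le_mul_of_nonneg_left hZ hSB0
      _ ≤ _ := hp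
      _ ≤ 2 * (4 * δ' * th φ (2 * s) 0 * (eh * th φ (s / 2) 0)) +
          2 * ((2 * δ * Z) * (e * Z)) := by
          have : PB * (e * Z) ≤ (2 * δ * Z) * (e * Z) :=
            mul_le_mul_of_nonneg_right hPB1 (by positivity)
          linarith
      _ = 8 * δ' * eh * (th φ (2 * s) 0 * th φ (s / 2) 0) + 4 * δ * e * Z ^ 2 := by ring
      _ ≤ 8 * δ' * eh * ((32 / 31) * Z ^ 2) + 4 * δ * e * Z ^ 2 := by
          have : 0 ≤ 8 * δ' * eh := by positivity
          nlinarith [mul_le_mul_of_nonneg_left hE1 this]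
      _ = _ := by ring
  have h9 : (8 * (32 / 31) * δ' * eh + 4 * δ * e) * Z ^ 2 ≤
      ((9 * δ' * eh + (64 / 15) * δ * e) * Z) * ((15 / 16) * Z) := by
    have q1 : 0 ≤ δ' * eh * Z ^ 2 := by positivity
    have q2 : 0 ≤ δ * e * Z ^ 2 := by positivity
    nlinarith
  have := hmain.trans h9
  exact le_of_mul_le_mul_right this (by positivity)

/-- The main dual inequality. -/
theorem dual_core (h : GS φ) {s : ℝ} (hs : 0 < s) (x : E)
    (hD : 32 * DD φ (4 * s) ≤ AA φ (4 * s)) (hD' : 32 * DD φ (2 * s) ≤ AA φ (2 * s)) :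
    (1 - ee φ (2 * s) x) ^ 2 - (1 - ee φ s x) ≤
      9 * (DD φ (2 * s) / AA φ (2 * s)) * ee φ (s / 2) x +
      9 * (DD φ (4 * s) / AA φ (4 * s)) * ee φ s x := by
  have h4 : 0 < 4 * s := by positivity
  have h2 : 0 < 2 * s := by positivity
  have hh2 : 0 < s / 2 := by positivity
  have Z0 := th_pos h hs (0 : E)
  have Z2 := th_pos h h2 (0 : E)
  have Z4 := th_pos h h4 (0 : E)
  have A4 := AA_pos h h4
  have D4 := DD_nonneg h h4
  have k4 := kp_ker h h4
  have hSB := SB_le h hs x hD hD'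
  have he := ee_nonneg h hs x
  set δ := DD φ (4 * s) / AA φ (4 * s) with hδ
  set δ' := DD φ (2 * s) / AA φ (2 * s) with hδ'
  have hδ0 : 0 ≤ δ := div_nonneg D4 A4.le
  -- the identity
  have hthsum : Summable fun W => exp (-s * ‖φ W‖ ^ 2) * th φ (4 * s) ((1 / 2 : ℝ) • φ W) := by
    refine h.summable_mul hs (M := th φ (4 * s) 0) fun w => ?_
    rw [abs_of_pos (th_pos h h4 _)]
    exact half_le h h4 w
  have hthcos : Summable fun W => exp (-s * ‖φ W‖ ^ 2) * (th φ (4 * s) ((1 / 2 : ℝ) • φ W) *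
      cos (2 * π * inner ℝ (φ W) x)) := by
    refine h.summable_mul hs (M := th φ (4 * s) 0 * 1) fun w => ?_
    rw [abs_mul, abs_of_pos (th_pos h h4 _)]
    exact mul_le_mul (half_le h h4 w) (abs_cos_le_one _) (abs_nonneg _) Z4.le
  have hthh : Summable fun W => exp (-s * ‖φ W‖ ^ 2) * (th φ (4 * s) ((1 / 2 : ℝ) • φ W) *
      hh φ x W) := by
    refine h.summable_mul hs (M := th φ (4 * s) 0 * 2) fun w => ?_
    rw [abs_mul, abs_of_pos (th_pos h h4 _)]
    exact mul_le_mul (half_le h h4 w) (hh_abs _ _) (abs_nonneg _) Z4.le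
  have id1 : th φ (2 * s) 0 ^ 2 - (th φ (2 * s) 0 - NN φ (2 * s) x) ^ 2 =
      ∑' W, exp (-s * ‖φ W‖ ^ 2) * (th φ (4 * s) ((1 / 2 : ℝ) • φ W) * hh φ x W) := by
    rw [one_sq h hs, cos_sq h hs, ← hthsum.tsum_sub hthcos]
    refine tsum_congr fun W => ?_
    unfold hh
    ring
  -- lower bound of the right-hand side
  have hlow : (NN φ s x - SB φ s x - 4 * δ * NN φ s x) * th φ (4 * s) 0 ≤
      th φ (2 * s) 0 ^ 2 - (th φ (2 * s) 0 - NN φ (2 * s) x) ^ 2 := by
    rw [id1]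
    have s1 := h.summable_mul hs (hh_abs (φ := φ) x)
    have s2 := h.summable_mul hs (bdhh_abs (φ := φ) (4 * s) x)
    unfold NN SB
    rw [← tsum_mul_left, ← s1.tsum_sub s2, ← (s1.sub s2).tsum_sub (s1.mul_left _),
      ← tsum_mul_right]
    refine Summable.tsum_le_tsum (fun W => ?_) (((s1.sub s2).sub (s1.mul_left _)).mul_right _)
      hthh
    have n1 := hh_nonneg (φ := φ) x W
    have key : (1 - bd φ (4 * s) (red W) - 4 * δ) ≤ kp φ (4 * s) (red W) := by
      by_cases c1 : kp φ (4 * s) (red W) ≤ 1 / 2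
      · have e1 : bd φ (4 * s) (red W) = 1 := if_pos c1
        rw [e1]
        have := k4.pos (red W)
        linarith
      · have e1 : bd φ (4 * s) (red W) = 0 := if_neg c1
        rw [e1]
        push Not at c1
        have h5 := k4.good two_tor c1
        have h6 : (1 - kp φ (4 * s) (red W)) ≤ 4 * δ := by
          rw [hδ, mul_div_assoc', le_div_iff₀ A4]
          exact h5
        linarith
    rw [th_half_eq h h4]
    have q : 0 ≤ exp (-s * ‖φ W‖ ^ 2) * hh φ x W * th φ (4 * s) 0 := by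
      have := exp_pos (-s * ‖φ W‖ ^ 2)
      positivity
    have := mul_le_mul_of_nonneg_left key q
    calc _ = exp (-s * ‖φ W‖ ^ 2) * hh φ x W * th φ (4 * s) 0 *
        (1 - bd φ (4 * s) (red W) - 4 * δ) := by ring
      _ ≤ _ := this
      _ = _ := by ring
  have hJ := J_nonneg h h2
  rw [show 2 * (2 * s) = 4 * s by ring, show 2 * s / 2 = s by ring] at hJ
  rw [NN_eq h h2, NN_eq h hs] at hlow
  set Z := th φ s 0
  set z2 := th φ (2 * s) 0
  set z4 := th φ (4 * s) 0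
  set e := ee φ s x
  set e2 := ee φ (2 * s) x
  set eh := ee φ (s / 2) x
  set X := 9 * δ' * eh + 64 / 15 * δ * e with hX
  -- (e Z - S - 4δ e Z) z4 ≤ z2² (1 - (1-e2)²)
  have h5 : (e * Z - X * Z - 4 * δ * (e * Z)) * z4 ≤ z2 ^ 2 * (1 - (1 - e2) ^ 2) := by
    calc (e * Z - X * Z - 4 * δ * (e * Z)) * z4
        ≤ (e * Z - SB φ s x - 4 * δ * (e * Z)) * z4 := by
          apply mul_le_mul_of_nonneg_right _ Z4.le
          linarith
      _ ≤ _ := hlow
      _ = _ := by ring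
  have h6 : e - X - 4 * δ * e ≤ 1 - (1 - e2) ^ 2 := by
    by_cases hneg : e - X - 4 * δ * e ≤ 0
    · have e2n : 0 ≤ ee φ (2 * s) x := ee_nonneg h h2 x
      have e2le : ee φ (2 * s) x ≤ 2 := by
        unfold ee
        rw [div_le_iff₀ Z2]
        exact NN_le h h2 x
      have : 0 ≤ 1 - (1 - e2) ^ 2 := by
        have h7 : 0 ≤ e2 := e2n
        have h8 : e2 ≤ 2 := e2le
        nlinarith
      linarith
    · push Not at hneg
      have h7 : (e - X - 4 * δ * e) * z2 ^ 2 ≤ z2 ^ 2 * (1 - (1 - e2) ^ 2) := by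
        calc (e - X - 4 * δ * e) * z2 ^ 2 ≤ (e - X - 4 * δ * e) * (z4 * Z) :=
              mul_le_mul_of_nonneg_left hJ hneg.le
          _ = (e * Z - X * Z - 4 * δ * (e * Z)) * z4 := by ring
          _ ≤ _ := h5
      have h8 : z2 ^ 2 * (e - X - 4 * δ * e) ≤ z2 ^ 2 * (1 - (1 - e2) ^ 2) := by
        rw [mul_comm]; exact h7
      exact le_of_mul_le_mul_left h8 (by positivity)
  have h7 : 0 ≤ δ * e := mul_nonneg hδ0 he
  rw [hX] at h6
  nlinarith

end Pool.Agent.H.MP_b892c7_gt
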