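import Pool.Agent.H.MP_b892c7_gt.Dual

set_option autoImplicit false
set_option linter.unusedSectionVars false

namespace Pool.Agent.H.MP_b892c7_gt

open Real

variable {d : Type*} [Fintype d] [DecidableEq d]
variable {E : Type*} [NormedAddCommGroup E] [InnerProductSpace ℝ E]
variable {φ : (d → ℤ) →+ E}

lemma red_add (v w : d → ℤ) : red (v + w) = red v + red w := by
  ext i
  simp [red]

lemma red_e1 (c : d → ZMod 2) (m : d → ℤ) : red (m + m + lft c) = c := by
  rw [red_add, red_add, two_tor, zero_add, red_lft]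

/-- Summation over parity classes. -/
theorem class_sum (h : GS φ) {s : ℝ} (hs : 0 < s) (g : (d → ZMod 2) → ℝ) :
    ∑' w, exp (-s * ‖φ w‖ ^ 2) * g (red w) = ∑ c, nc φ (4 * s) 0 c * g c := by
  obtain ⟨M, hM⟩ : ∃ M, ∀ c, |g c| ≤ M := by
    refine ⟨∑ c, |g c|, fun c => ?_⟩
    exact Finset.single_le_sum (f := fun c => |g c|) (fun i _ => abs_nonneg _)
      (Finset.mem_univ c)
  have hx := h.summable_mul hs (f := fun w => g (red w)) (M := M) (fun w => hM _)
  rw [← e1.tsum_eq]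
  have key : ∀ p : (d → ZMod 2) × (d → ℤ),
      exp (-s * ‖φ (e1 p)‖ ^ 2) * g (red (e1 p))
      = exp (-(4 * s) * ‖(1 / 2 : ℝ) • (0 - φ (lft p.1)) - φ p.2‖ ^ 2) * g p.1 := by
    rintro ⟨c, m⟩
    rw [e1_apply, red_e1]
    congr 2
    have h1 : φ (m + m + lft c) = (-2 : ℝ) • ((1 / 2 : ℝ) • (0 - φ (lft c)) - φ m) := by
      simp only [map_add]
      module
    rw [h1, norm_smul]
    simp only [Real.norm_eq_abs]
    rw [show |(-2 : ℝ)| = 2 by norm_num]
    ring
  simp_rw [key]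
  have hs2 : Summable fun p : (d → ZMod 2) × (d → ℤ) =>
      exp (-(4 * s) * ‖(1 / 2 : ℝ) • (0 - φ (lft p.1)) - φ p.2‖ ^ 2) * g p.1 := by
    rw [← summable_congr key]
    exact e1.summable_iff.mpr hx
  rw [hs2.tsum_prod, tsum_fintype]
  refine Finset.sum_congr rfl fun c _ => ?_
  simp only
  rw [tsum_mul_right]
  rfl

/-- Indicator of the bad classes. -/
noncomputable def bd (φ : (d → ℤ) →+ E) (b : ℝ) (c : d → ZMod 2) : ℝ :=
  if kp φ b c ≤ 1 / 2 then 1 else 0

lemma bd_nonneg (b : ℝ) (c : d → ZMod 2) : 0 ≤ bd φ b c := by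
  unfold bd; split_ifs <;> norm_num

lemma bd_le_one (b : ℝ) (c : d → ZMod 2) : bd φ b c ≤ 1 := by
  unfold bd; split_ifs <;> norm_num

lemma bd_abs (b : ℝ) (c : d → ZMod 2) : |bd φ b c| ≤ 1 := by
  rw [abs_of_nonneg (bd_nonneg b c)]; exact bd_le_one b c

/-- Total kernel mass. -/
noncomputable def AA (φ : (d → ℤ) →+ E) (b : ℝ) : ℝ := ∑ c, kp φ b c

/-- Kernel gap. -/
noncomputable def DD (φ : (d → ℤ) →+ E) (b : ℝ) : ℝ := ∑ c, kp φ b c * (1 - kp φ b c)

lemma AA_pos (h : GS φ) {b : ℝ} (hb : 0 < b) : 0 < AA φ b := (kp_ker h hb).sum_pos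

lemma DD_nonneg (h : GS φ) {b : ℝ} (hb : 0 < b) : 0 ≤ DD φ b := by
  refine Finset.sum_nonneg fun c _ => ?_
  have := (kp_ker h hb).pos c
  have := (kp_ker h hb).le_one c
  nlinarith

lemma AA_eq (h : GS φ) {s : ℝ} (hs : 0 < s) : AA φ (4 * s) * th φ (4 * s) 0 = th φ s 0 := by
  unfold AA
  rw [sum_kp h hs]
  have := th_pos h (show 0 < 4 * s by positivity) (0 : E)
  field_simp

lemma sum_sq_eq (b : ℝ) : ∑ c, kp φ b c ^ 2 = AA φ b - DD φ b := by
  unfold AA DD
  rw [← Finset.sum_sub_distrib]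
  refine Finset.sum_congr rfl fun c _ => ?_
  ring

lemma AD_eq (h : GS φ) {s : ℝ} (hs : 0 < s) :
    (AA φ (4 * s) - DD φ (4 * s)) * th φ (4 * s) 0 ^ 2 = th φ (2 * s) 0 ^ 2 := by
  rw [← sum_sq_eq, sum_kp_sq h hs]
  have := th_pos h (show 0 < 4 * s by positivity) (0 : E)
  exact div_mul_cancel₀ _ (pow_ne_zero 2 this.ne')

/-- Mass of the bad classes. -/
theorem bad_le (h : GS φ) {s : ℝ} (hs : 0 < s) :
    ∑' w, exp (-s * ‖φ w‖ ^ 2) * bd φ (4 * s) (red w) ≤ 2 * DD φ (4 * s) * th φ (4 * s) 0 := by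
  rw [class_sum h hs]
  have h4 : 0 < 4 * s := by positivity
  have h0 := th_pos h h4 (0 : E)
  have h1 := (kp_ker h h4).bad_mass
  have e : ∀ c, nc φ (4 * s) 0 c * bd φ (4 * s) c
      = (if kp φ (4 * s) c ≤ 1 / 2 then kp φ (4 * s) c else 0) * th φ (4 * s) 0 := by
    intro c
    have : nc φ (4 * s) 0 c = kp φ (4 * s) c * th φ (4 * s) 0 := by
      unfold kp; field_simp
    unfold bd
    rw [this]
    split_ifs <;> simp
  simp_rw [e]
  rw [← Finset.sum_mul, ← Finset.sum_filter]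
  unfold DD
  exact mul_le_mul_of_nonneg_right h1 h0.le

/-- On bad classes the finer kernel is small. -/
theorem bad_fine (h : GS φ) {s : ℝ} (hs : 0 < s) (hD : 32 * DD φ (4 * s) ≤ AA φ (4 * s))
    (c : d → ZMod 2) (hc : kp φ (4 * s) c ≤ 1 / 2) :
    kp φ (2 * s) c * AA φ (2 * s) ≤ 4 * DD φ (2 * s) := by
  have h4 : 0 < 4 * s := by positivity
  have h2 : 0 < 2 * s := by positivity
  have k4 := kp_ker h h4
  have k2 := kp_ker h h2
  have h1 := k4.nojump two_tor hD hc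
  have h3 := kp_half_sq h hs c
  rw [sum_sq_eq] at h3
  rw [← h3] at h1
  have hA := AA_pos h h4
  have hD0 := DD_nonneg h h4
  refine k2.bad two_tor ?_
  by_contra hcon
  push Not at hcon
  have h5 : (1 / 4 : ℝ) ≤ kp φ (2 * s) c ^ 2 := by nlinarith
  have h6 : (1 / 4) * (AA φ (4 * s) - DD φ (4 * s)) ≤ 4 * DD φ (4 * s) :=
    (mul_le_mul_of_nonneg_right h5 (by linarith)).trans h1
  linarith

/-- The energy carried by bad classes. -/
noncomputable def SB (φ : (d → ℤ) →+ E) (s : ℝ) (x : E) : ℝ :=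
  ∑' w, exp (-s * ‖φ w‖ ^ 2) * (bd φ (4 * s) (red w) * hh φ x w)

lemma bdhh_abs (b : ℝ) (x : E) (w : d → ℤ) : |bd φ b (red w) * hh φ x w| ≤ 2 := by
  rw [abs_mul, show (2 : ℝ) = 1 * 2 by norm_num]
  exact mul_le_mul (bd_abs _ _) (hh_abs _ _) (abs_nonneg _) zero_le_one

/-- The pairing inequality for the bad classes. -/
theorem bad_pair (h : GS φ) {s : ℝ} (hs : 0 < s) (x : E)
    (hD : 32 * DD φ (4 * s) ≤ AA φ (4 * s)) :
    SB φ s x * (th φ s 0 - ∑' w, exp (-s * ‖φ w‖ ^ 2) * bd φ (4 * s) (red w)) ≤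
      2 * ∑' W, exp (-(s / 2) * ‖φ W‖ ^ 2) * (th φ (2 * s) ((1 / 2 : ℝ) • φ W) *
        (bd φ (4 * s) (red W) * hh φ x W))
      + 2 * ((∑' w, exp (-s * ‖φ w‖ ^ 2) * bd φ (4 * s) (red w)) * NN φ s x) := by
  have hs2 : 0 < s / 2 := by positivity
  have k4 := kp_ker h (show 0 < 4 * s by positivity)
  have hb := h.summable_mul hs (f := fun w => bd φ (4 * s) (red w)) (M := 1)
    (fun w => bd_abs _ _)
  have h1 : Summable fun w => exp (-s * ‖φ w‖ ^ 2) := h s hs
  have hg := h.summable_mul hs (f := fun w => 1 - bd φ (4 * s) (red w)) (M := 1)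
    (fun w => by
      rw [abs_le]
      constructor <;> linarith [bd_nonneg (φ := φ) (4 * s) (red w),
        bd_le_one (φ := φ) (4 * s) (red w)])
  have hgs : ∑' w, exp (-s * ‖φ w‖ ^ 2) * (1 - bd φ (4 * s) (red w))
      = th φ s 0 - ∑' w, exp (-s * ‖φ w‖ ^ 2) * bd φ (4 * s) (red w) := by
    rw [th_zero, ← h1.tsum_sub hb]
    exact tsum_congr fun w => by ring
  have hS := h.summable_mul hs (bdhh_abs (φ := φ) (4 * s) x)
  have hN := h.summable_mul hs (hh_abs (φ := φ) x)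
  rw [← hgs]
  unfold SB NN
  have p1 : Summable fun p : (d → ℤ) × (d → ℤ) =>
      (exp (-s * ‖φ p.1‖ ^ 2) * (bd φ (4 * s) (red p.1) * hh φ x p.1)) *
      (exp (-s * ‖φ p.2‖ ^ 2) * (1 - bd φ (4 * s) (red p.2))) :=
    summable_mul_of_summable_norm hS.norm hg.norm
  have p2 : Summable fun p : (d → ℤ) × (d → ℤ) =>
      (exp (-s * ‖φ p.1‖ ^ 2) * bd φ (4 * s) (red p.1)) *
      (exp (-s * ‖φ p.2‖ ^ 2) * hh φ x p.2) :=
    summable_mul_of_summable_norm hb.norm hN.norm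
  have p3 := h.summable_pair hs (f := fun p => bd φ (4 * s) (red (p.1 + p.2)) *
    hh φ x (p.1 + p.2)) (M := 2) (fun p => bdhh_abs _ _ _)
  rw [hS.tsum_mul_tsum hg p1, hb.tsum_mul_tsum hN p2]
  have hc := conv h hs2 (H := fun W => bd φ (4 * s) (red W) * hh φ x W) (M := 2)
    (fun w => bdhh_abs _ _ _)
  rw [show 2 * (s / 2) = s by ring, show 4 * (s / 2) = 2 * s by ring] at hc
  rw [← hc, ← tsum_mul_left, ← tsum_mul_left, ← (p3.mul_left 2).tsum_add (p2.mul_left 2)]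
  refine Summable.tsum_le_tsum (fun p => ?_) p1 ((p3.mul_left 2).add (p2.mul_left 2))
  obtain ⟨w, m⟩ := p
  simp only
  set qw := exp (-s * ‖φ w‖ ^ 2)
  set qm := exp (-s * ‖φ m‖ ^ 2)
  have hqw : 0 < qw := exp_pos _
  have hqm : 0 < qm := exp_pos _
  have hq : 0 < qw * qm := by positivity
  have core : bd φ (4 * s) (red w) * hh φ x w * (1 - bd φ (4 * s) (red m)) ≤
      2 * (bd φ (4 * s) (red (w + m)) * hh φ x (w + m)) +
      2 * (bd φ (4 * s) (red w) * hh φ x m) := by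
    have n1 := hh_nonneg (φ := φ) x w
    have n2 := hh_nonneg (φ := φ) x (w + m)
    have n3 := hh_nonneg (φ := φ) x m
    have b2 := bd_nonneg (φ := φ) (4 * s) (red (w + m))
    have b1 := bd_nonneg (φ := φ) (4 * s) (red w)
    by_cases c1 : kp φ (4 * s) (red w) ≤ 1 / 2
    · by_cases c2 : kp φ (4 * s) (red m) ≤ 1 / 2
      · have : bd φ (4 * s) (red m) = 1 := if_pos c2
        rw [this]
        have : 0 ≤ 2 * (bd φ (4 * s) (red (w + m)) * hh φ x (w + m)) +
          2 * (bd φ (4 * s) (red w) * hh φ x m) := by positivity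
        linarith
      · have c3 : kp φ (4 * s) (red (w + m)) ≤ 1 / 2 := by
          by_contra hcon
          push Not at hcon c2
          have := k4.good_add two_tor hD hcon c2
          rw [red_add, add_assoc, two_tor, add_zero] at this
          linarith
        have e1 : bd φ (4 * s) (red w) = 1 := if_pos c1
        have e2 : bd φ (4 * s) (red m) = 0 := if_neg c2
        have e3 : bd φ (4 * s) (red (w + m)) = 1 := if_pos c3
        rw [e1, e2, e3]
        have := hh_le (φ := φ) x w m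
        linarith
    · have e1 : bd φ (4 * s) (red w) = 0 := if_neg c1
      rw [e1]
      have : 0 ≤ 2 * (bd φ (4 * s) (red (w + m)) * hh φ x (w + m)) := by positivity
      linarith
  calc qw * (bd φ (4 * s) (red w) * hh φ x w) * (qm * (1 - bd φ (4 * s) (red m)))
      = (qw * qm) * (bd φ (4 * s) (red w) * hh φ x w * (1 - bd φ (4 * s) (red m))) := by ring
    _ ≤ (qw * qm) * (2 * (bd φ (4 * s) (red (w + m)) * hh φ x (w + m)) +
      2 * (bd φ (4 * s) (red w) * hh φ x m)) := mul_le_mul_of_nonneg_left core hq.le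
    _ = _ := by ring

end Pool.Agent.H.MP_b892c7_gt
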