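import Pool.Agent.H.MP_b892c7_gt.Basic

set_option autoImplicit false
set_option linter.unusedSectionVars false

namespace Pool.Agent.H.MP_b892c7_gt

open Real

variable {d : Type*} [Fintype d] [DecidableEq d] {E : Type*} [NormedAddCommGroup E] [InnerProductSpace ℝ E]
variable {φ : (d → ℤ) →+ E}

/-- The Gaussian sum at the half point of the class `c`. -/
noncomputable def nc (φ : (d → ℤ) →+ E) (a : ℝ) (x : E) (c : d → ZMod 2) : ℝ :=
  th φ a ((1 / 2 : ℝ) • (x - φ (lft c)))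

lemma nc_pos (h : GS φ) {a : ℝ} (ha : 0 < a) (x : E) (c : d → ZMod 2) : 0 < nc φ a x c :=
  th_pos h ha _

lemma half_double (v : E) : (1 / 2 : ℝ) • (v + v) = v := by
  rw [← two_smul ℝ v, smul_smul]; norm_num

lemma nc_add (a : ℝ) (x : E) (c c' : d → ZMod 2) :
    nc φ a (x - φ (lft c')) c = nc φ a x (c + c') := by
  unfold nc
  obtain ⟨m, hm⟩ := lft_add c c'
  rw [hm]
  have : (1 / 2 : ℝ) • (x - φ (lft c + lft c' - (m + m)))
      = (1 / 2 : ℝ) • (x - φ (lft c') - φ (lft c)) + φ m := by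
    rw [map_sub, map_add, map_add]
    conv_rhs => rw [← half_double (φ m)]
    rw [← smul_add]
    congr 1
    abel
  rw [this, th_add]

lemma parallelogram' (A B : E) : ‖A + B‖ ^ 2 + ‖A - B‖ ^ 2 = 2 * ‖A‖ ^ 2 + 2 * ‖B‖ ^ 2 := by
  have := parallelogram_law_with_norm ℝ A B
  nlinarith [this]

theorem F1 (h : GS φ) {a : ℝ} (ha : 0 < a) (u v : E) :
    th φ a u * th φ a v = ∑ c, nc φ (2 * a) (u + v) c * nc φ (2 * a) (u - v) c := by
  have hu := h.summable ha u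
  have hv := h.summable ha v
  have h2a : 0 < 2 * a := by positivity
  have huv := hu.mul_of_nonneg hv (fun _ => (exp_pos _).le) (fun _ => (exp_pos _).le)
  unfold th
  rw [hu.tsum_mul_tsum hv huv, ← e2.tsum_eq]
  have key : ∀ p : (d → ZMod 2) × (d → ℤ) × (d → ℤ),
      exp (-a * ‖u - φ (e2 p).1‖ ^ 2) * exp (-a * ‖v - φ (e2 p).2‖ ^ 2)
      = exp (-(2 * a) * ‖(1 / 2 : ℝ) • (u + v - φ (lft p.1)) - φ p.2.1‖ ^ 2)
        * exp (-(2 * a) * ‖(1 / 2 : ℝ) • (u - v - φ (lft p.1)) - φ p.2.2‖ ^ 2) := by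
    rintro ⟨c, p, q⟩
    rw [← exp_add, ← exp_add]
    congr 1
    set A := (1 / 2 : ℝ) • (u + v - φ (lft c)) - φ p with hA
    set B := (1 / 2 : ℝ) • (u - v - φ (lft c)) - φ q with hB
    have h1 : u - φ (e2 (c, p, q)).1 = A + B := by
      rw [e2_apply, hA, hB]
      simp only [map_add]
      module
    have h2 : v - φ (e2 (c, p, q)).2 = A - B := by
      rw [e2_apply, hA, hB]
      simp only [map_sub]
      module
    rw [h1, h2]
    have := parallelogram' A B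
    linear_combination (-a) * this
  simp_rw [key]
  have hs : Summable fun p : (d → ZMod 2) × (d → ℤ) × (d → ℤ) =>
      exp (-(2 * a) * ‖(1 / 2 : ℝ) • (u + v - φ (lft p.1)) - φ p.2.1‖ ^ 2)
        * exp (-(2 * a) * ‖(1 / 2 : ℝ) • (u - v - φ (lft p.1)) - φ p.2.2‖ ^ 2) := by
    rw [← summable_congr key]
    exact (e2.summable_iff (f := fun q : (d → ℤ) × (d → ℤ) =>
      exp (-a * ‖u - φ q.1‖ ^ 2) * exp (-a * ‖v - φ q.2‖ ^ 2))).mpr huv
  rw [hs.tsum_prod, tsum_fintype]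
  refine Finset.sum_congr rfl fun c _ => ?_
  unfold nc th
  have hu' := h.summable h2a ((1 / 2 : ℝ) • (u + v - φ (lft c)))
  have hv' := h.summable h2a ((1 / 2 : ℝ) • (u - v - φ (lft c)))
  exact (hu'.tsum_mul_tsum hv'
    (hu'.mul_of_nonneg hv' (fun _ => (exp_pos _).le) (fun _ => (exp_pos _).le))).symm

theorem F2 (h : GS φ) {a : ℝ} (ha : 0 < a) (x : E) :
    th φ a x = ∑ c, nc φ (4 * a) x c := by
  have hx := h.summable ha x
  unfold th
  rw [← e1.tsum_eq]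
  have key : ∀ p : (d → ZMod 2) × (d → ℤ),
      exp (-a * ‖x - φ (e1 p)‖ ^ 2)
      = exp (-(4 * a) * ‖(1 / 2 : ℝ) • (x - φ (lft p.1)) - φ p.2‖ ^ 2) := by
    rintro ⟨c, m⟩
    congr 1
    have h1 : x - φ (e1 (c, m)) = (2 : ℝ) • ((1 / 2 : ℝ) • (x - φ (lft c)) - φ m) := by
      rw [e1_apply]
      simp only [map_add]
      module
    rw [h1, norm_smul]
    simp only [Real.norm_eq_abs, abs_of_pos (show (0 : ℝ) < 2 by norm_num)]
    ring
  simp_rw [key]
  have hs : Summable fun p : (d → ZMod 2) × (d → ℤ) =>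
      exp (-(4 * a) * ‖(1 / 2 : ℝ) • (x - φ (lft p.1)) - φ p.2‖ ^ 2) := by
    rw [← summable_congr key]
    exact (e1.summable_iff (f := fun m : d → ℤ => exp (-a * ‖x - φ m‖ ^ 2))).mpr hx
  rw [hs.tsum_prod, tsum_fintype]
  rfl

end Pool.Agent.H.MP_b892c7_gt
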