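import Mathlib

set_option autoImplicit false
set_option linter.unusedSectionVars false

namespace Pool.Agent.H.MP_b892c7_gt

open Real

/-- Square summable families embed into `ℓ²(ℕ)`. -/
theorem toSeq {κ : Type*} [Countable κ] {X : Type*} (a : X → κ → ℝ)
    (ha : ∀ x, Summable fun k => a x k ^ 2) :
    ∃ f : X → lp (fun _ : ℕ => ℝ) 2, ∀ u v, ‖f u - f v‖ ^ 2 = ∑' k, (a u k - a v k) ^ 2 := by
  obtain ⟨e, he⟩ := exists_injective_nat κ
  have hext : ∀ (g : κ → ℝ) (k : κ), Function.extend e g 0 (e k) = g k :=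
    fun g k => he.extend_apply g 0 k
  have hout : ∀ (g : κ → ℝ) (n : ℕ), n ∉ Set.range e → Function.extend e g 0 n = 0 := by
    intro g n hn
    rw [Function.extend_apply' _ _ _ (by simpa using hn)]
    rfl
  have hmem : ∀ x, Memℓp (fun n : ℕ => (Function.extend e (a x) 0 n : ℝ)) 2 := by
    intro x
    refine memℓp_gen ?_
    have h2 : (2 : ENNReal).toReal = 2 := by norm_num
    rw [h2]
    have h3 : ∀ n : ℕ, ‖(Function.extend e (a x) 0 n : ℝ)‖ ^ (2 : ℝ)
        = (Function.extend e (a x) 0 n) ^ 2 := by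
      intro n
      rw [rpow_two, Real.norm_eq_abs, sq_abs]
    simp_rw [h3]
    rw [← he.summable_iff (f := fun n => (Function.extend e (a x) 0 n) ^ 2)
      (fun n hn => by rw [hout _ n hn]; norm_num)]
    refine (ha x).congr fun k => ?_
    simp only [Function.comp]
    rw [hext]
  refine ⟨fun x => ⟨fun n => Function.extend e (a x) 0 n, hmem x⟩, fun u v => ?_⟩
  have h2 : (2 : ENNReal).toReal = 2 := by norm_num
  have h := lp.norm_rpow_eq_tsum (p := 2) (by rw [h2]; norm_num)
    ((⟨fun n => Function.extend e (a u) 0 n, hmem u⟩ : lp (fun _ : ℕ => ℝ) 2)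
      - ⟨fun n => Function.extend e (a v) 0 n, hmem v⟩)
  rw [h2, rpow_two] at h
  rw [h]
  have h3 : ∀ n : ℕ, ‖((⟨fun n => Function.extend e (a u) 0 n, hmem u⟩ : lp (fun _ : ℕ => ℝ) 2)
      - ⟨fun n => Function.extend e (a v) 0 n, hmem v⟩ : lp (fun _ : ℕ => ℝ) 2) n‖ ^ (2 : ℝ)
      = (Function.extend e (a u) 0 n - Function.extend e (a v) 0 n) ^ 2 := by
    intro n
    rw [rpow_two, Real.norm_eq_abs, sq_abs]
    rfl
  simp_rw [h3]
  rw [← he.tsum_eq (f := fun n => (Function.extend e (a u) 0 n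
    - Function.extend e (a v) 0 n) ^ 2) ?_]
  · refine tsum_congr fun k => ?_
    rw [hext, hext]
  · intro n hn
    by_contra hcon
    apply hn
    simp only
    rw [hout _ n hcon, hout _ n hcon]
    norm_num

variable {E : Type*} [NormedAddCommGroup E] [InnerProductSpace ℝ E]

/-- Realization of a trigonometric conditionally negative kernel in `ℓ²`. -/
theorem embed {ι : Type*} [Countable ι] (c : ι → ℝ) (hc : ∀ i, 0 ≤ c i) (hs : Summable c)
    (w : ι → E) :
    ∃ f : E → lp (fun _ : ℕ => ℝ) 2, ∀ u v,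
      ‖f u - f v‖ ^ 2 = ∑' i, c i * (1 - cos (2 * π * inner ℝ (w i) (u - v))) := by
  let a : E → ι × Bool → ℝ := fun u p =>
    √(c p.1 / 2) * (if p.2 then cos (2 * π * inner ℝ (w p.1) u)
      else sin (2 * π * inner ℝ (w p.1) u))
  have hsq : ∀ i, √(c i / 2) ^ 2 = c i / 2 := fun i => Real.sq_sqrt (by linarith [hc i])
  have hs2 : Summable fun p : ι × Bool => c p.1 / 2 := by
    have h1 : Summable fun i => c i / 2 := hs.div_const 2
    have h2 : Summable fun _ : Bool => (1 : ℝ) := (hasSum_fintype _).summable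
    have := h1.mul_of_nonneg h2 (fun i => div_nonneg (hc i) (by norm_num))
      (fun _ => zero_le_one)
    simpa using this
  have ha : ∀ u, Summable fun p => a u p ^ 2 := by
    intro u
    refine Summable.of_nonneg_of_le (fun _ => sq_nonneg _) (fun p => ?_) hs2
    simp only [a]
    rw [mul_pow, hsq]
    have h0 : 0 ≤ c p.1 / 2 := by linarith [hc p.1]
    have : (if p.2 = true then cos (2 * π * inner ℝ (w p.1) u)
      else sin (2 * π * inner ℝ (w p.1) u)) ^ 2 ≤ 1 := by
      split_ifs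
      · exact cos_sq_le_one _
      · exact sin_sq_le_one _
    exact mul_le_of_le_one_right h0 this
  obtain ⟨f, hf⟩ := toSeq a ha
  refine ⟨f, fun u v => ?_⟩
  rw [hf]
  have hsum : Summable fun p : ι × Bool => (a u p - a v p) ^ 2 := by
    refine Summable.of_nonneg_of_le (fun _ => sq_nonneg _) (fun p => ?_)
      (((ha u).mul_left 2).add ((ha v).mul_left 2))
    nlinarith [sq_nonneg (a u p + a v p)]
  rw [hsum.tsum_prod]
  refine tsum_congr fun i => ?_
  rw [tsum_fintype, Fintype.sum_bool]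
  simp only [a, if_true, Bool.false_eq_true, if_false]
  rw [inner_sub_right, mul_sub (2 * π), cos_sub]
  set α := 2 * π * inner ℝ (w i) u
  set β := 2 * π * inner ℝ (w i) v
  have h1 := sin_sq_add_cos_sq α
  have h2 := sin_sq_add_cos_sq β
  have e1 : (√(c i / 2) * cos α - √(c i / 2) * cos β) ^ 2
      + (√(c i / 2) * sin α - √(c i / 2) * sin β) ^ 2
      = √(c i / 2) ^ 2 * ((sin α ^ 2 + cos α ^ 2) + (sin β ^ 2 + cos β ^ 2)
        - 2 * (cos α * cos β + sin α * sin β)) := by ring
  rw [e1, hsq, h1, h2]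
  ring

end Pool.Agent.H.MP_b892c7_gt
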