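import Pool.Agent.H.MP_b892c7_gt.ScaleData

set_option autoImplicit false
set_option linter.unusedSectionVars false

namespace Pool.Agent.H.MP_b892c7_gt

open Real

variable {d : Type*} [Fintype d] [DecidableEq d]
variable {E : Type*} [NormedAddCommGroup E] [InnerProductSpace ℝ E]
variable [FiniteDimensional ℝ E] [MeasurableSpace E] [BorelSpace E]
variable (b : Module.Basis d ℝ E)

/-- Distance to the lattice. -/
noncomputable def RR (x : E) : ℝ := Metric.infDist x (Set.range (lat b))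

lemma range_ne : (Set.range (lat b) : Set E).Nonempty := ⟨lat b 0, 0, rfl⟩

lemma RR_nonneg (x : E) : 0 ≤ RR b x := Metric.infDist_nonneg

lemma RR_le (x : E) (m : d → ℤ) : RR b x ≤ ‖x - lat b m‖ := by
  rw [← dist_eq_norm]
  exact Metric.infDist_le_dist_of_mem ⟨m, rfl⟩

lemma le_RR (x : E) (r : ℝ) (h : ∀ m, r ≤ ‖x - lat b m‖) : r ≤ RR b x := by
  unfold RR
  rw [Metric.le_infDist (range_ne b)]
  rintro y ⟨m, rfl⟩
  rw [dist_eq_norm]
  exact h m

lemma exists_near (x : E) (r : ℝ) (h : RR b x < r) : ∃ m, ‖x - lat b m‖ < r := by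
  by_contra hcon
  push Not at hcon
  have := le_RR b x r hcon
  linarith

/-- A positive lower bound for nonzero lattice vectors. -/
lemma exists_min : ∃ l : ℝ, 0 < l ∧ ∀ m : d → ℤ, m ≠ 0 → l ≤ ‖lat b m‖ := by
  obtain ⟨c, hc⟩ : ∃ c : ℝ, ∀ i, ‖dv b i‖ ≤ c := by
    refine ⟨∑ i, ‖dv b i‖, fun i => ?_⟩
    exact Finset.single_le_sum (f := fun i => ‖dv b i‖) (fun i _ => norm_nonneg _)
      (Finset.mem_univ i)
  refine ⟨1 / (|c| + 1), by positivity, fun m hm => ?_⟩
  obtain ⟨i, hi⟩ := Function.ne_iff.mp hm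
  have h1 : (1 : ℝ) ≤ |(m i : ℝ)| := by
    have : 1 ≤ |m i| := Int.one_le_abs (by simpa using hi)
    exact_mod_cast this
  have h2 : |(m i : ℝ)| ≤ (|c| + 1) * ‖lat b m‖ := by
    rw [← repr_lat b m i, ← inner_dv]
    refine (abs_real_inner_le_norm _ _).trans ?_
    apply mul_le_mul_of_nonneg_right _ (norm_nonneg _)
    exact (hc i).trans (by linarith [le_abs_self c])
  rw [div_le_iff₀ (by positivity)]
  linarith

lemma RR_double {l : ℝ} (hl : ∀ m : d → ℤ, m ≠ 0 → l ≤ ‖lat b m‖) (x : E)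
    (hx : RR b x < l / 4) : 2 * RR b x ≤ RR b (x + x) := by
  obtain ⟨m, hm⟩ := exists_near b x (l / 4) hx
  refine le_RR b _ _ fun k => ?_
  by_cases hk : k = m + m
  · subst hk
    have e : x + x - lat b (m + m) = (2 : ℝ) • (x - lat b m) := by
      rw [map_add]; module
    rw [e, norm_smul]
    have := RR_le b x m
    simp only [Real.norm_eq_abs, abs_of_pos (show (0 : ℝ) < 2 by norm_num)]
    linarith
  · have h1 := hl (k - (m + m)) (sub_ne_zero.mpr hk)
    have e : lat b (k - (m + m)) = (2 : ℝ) • (x - lat b m) - (x + x - lat b k) := by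
      rw [map_sub, map_add]; module
    rw [e] at h1
    have h2 := norm_sub_le ((2 : ℝ) • (x - lat b m)) (x + x - lat b k)
    rw [norm_smul] at h2
    simp only [Real.norm_eq_abs, abs_of_pos (show (0 : ℝ) < 2 by norm_num)] at h2
    linarith

lemma gT_double {T : ℝ} (hT : 0 < T) (x : E) : gT b T (x + x) ≤ 4 * gT b T x := by
  have h := doubling (GS_lat b) (show 0 < π / T by positivity) x
  have p0 := thT_pos b hT 0
  have p1 := thT_pos b hT x
  have p2 := thT_pos b hT (x + x)
  have h2 := log_le_log (by positivity) h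
  rw [log_mul p2.ne' (by positivity), log_pow, log_pow] at h2
  unfold gT lT
  push_cast at h2
  linarith

lemma gT_tilt {T : ℝ} (hT : 0 < T) (x : E) :
    π / 2 * RR b x ^ 2 - T * lT b (2 * T) 0 ≤ T * gT b T x := by
  have h2T : 0 < 2 * T := by positivity
  have ha : 0 < π / T := by positivity
  have h := tilt (GS_lat b) ha x (RR b x) (RR_nonneg b x) (RR_le b x)
  rw [show π / T / 2 = π / (2 * T) by field_simp] at h
  have h1 := h.trans (mul_le_mul_of_nonneg_left (th_le_zero b h2T x) (exp_pos _).le)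
  have p0 := thT_pos b hT 0
  have p1 := thT_pos b hT x
  have p2 := thT_pos b h2T 0
  have h2 := log_le_log p1 h1
  rw [log_mul (exp_pos _).ne' p2.ne', log_exp] at h2
  have h3 : 0 ≤ lT b T 0 := by
    unfold lT
    exact log_nonneg (one_le_th (GS_lat b) ha)
  have h4 : π / (2 * T) * RR b x ^ 2 - lT b (2 * T) 0 ≤ gT b T x := by
    unfold gT lT at *
    linarith
  calc π / 2 * RR b x ^ 2 - T * lT b (2 * T) 0
      = T * (π / (2 * T) * RR b x ^ 2 - lT b (2 * T) 0) := by field_simp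
    _ ≤ T * gT b T x := mul_le_mul_of_nonneg_left h4 hT.le

/-- The small scale end. -/
theorem small_scale : ∃ T : ℝ, 0 < T ∧ ∀ x : E, π / 4 * RR b x ^ 2 ≤ T * gT b T x := by
  obtain ⟨l, hl0, hl⟩ := exists_min b
  have hz : 0 ≤ lT b 2 0 := by
    unfold lT
    exact log_nonneg (one_le_th (GS_lat b) (by positivity))
  set c := π / 4 * (l / 4) ^ 2 with hc
  have hc0 : 0 < c := by positivity
  set T := min 1 (c / (lT b 2 0 + 1)) with hTdef
  have hT : 0 < T := lt_min one_pos (by positivity)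
  have hT1 : T ≤ 1 := min_le_left _ _
  have hTc : T * lT b (2 * T) 0 ≤ c := by
    have h1 : lT b (2 * T) 0 ≤ lT b 2 0 := lT_mono b (by positivity) (by linarith)
    calc T * lT b (2 * T) 0 ≤ T * lT b 2 0 := mul_le_mul_of_nonneg_left h1 hT.le
      _ ≤ c / (lT b 2 0 + 1) * lT b 2 0 :=
          mul_le_mul_of_nonneg_right (min_le_right _ _) hz
      _ ≤ c / (lT b 2 0 + 1) * (lT b 2 0 + 1) := by
          apply mul_le_mul_of_nonneg_left (by linarith) (by positivity)
      _ = c := by field_simp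
  refine ⟨T, hT, fun x => ?_⟩
  -- induction on the dyadic size
  have key : ∀ j : ℕ, ∀ x : E, l / 4 ≤ 2 ^ j * RR b x →
      π / 4 * RR b x ^ 2 ≤ T * gT b T x := by
    intro j
    induction j with
    | zero =>
      intro x hx
      rw [pow_zero, one_mul] at hx
      have h1 := gT_tilt b hT x
      have h2 := pow_le_pow_left₀ (by positivity) hx 2
      have h3 : c ≤ π / 4 * RR b x ^ 2 := by
        rw [hc]
        exact mul_le_mul_of_nonneg_left h2 (by positivity)
      linarith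
    | succ j ih =>
      intro x hx
      by_cases hbig : l / 4 ≤ RR b x
      · have h1 := gT_tilt b hT x
        have h2 := pow_le_pow_left₀ (by positivity) hbig 2
        have h3 : c ≤ π / 4 * RR b x ^ 2 := by
          rw [hc]
          exact mul_le_mul_of_nonneg_left h2 (by positivity)
        linarith
      · push Not at hbig
        have h1 := RR_double b hl x hbig
        have h2 := ih (x + x) (by
          have : 2 ^ (j + 1) * RR b x = 2 ^ j * (2 * RR b x) := by ring
          rw [this] at hx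
          exact hx.trans (mul_le_mul_of_nonneg_left h1 (by positivity)))
        have h3 := gT_double b hT x
        have h4 := RR_nonneg b x
        have h5 := pow_le_pow_left₀ (by positivity) h1 2
        have h6 : π / 4 * (2 * RR b x) ^ 2 ≤ T * gT b T (x + x) :=
          (mul_le_mul_of_nonneg_left h5 (by positivity)).trans h2
        have h7 := mul_le_mul_of_nonneg_left h3 hT.le
        nlinarith
  rcases (RR_nonneg b x).eq_or_lt with h0 | h0
  · rw [← h0]
    have := gT_nonneg b hT x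
    have := mul_nonneg hT.le this
    linarith
  · obtain ⟨j, hj⟩ := pow_unbounded_of_one_lt (l / 4 / RR b x) (show (1 : ℝ) < 2 by norm_num)
    refine key j x ?_
    rw [div_lt_iff₀ h0] at hj
    exact hj.le

/-- Covering radius bound. -/
lemma exists_cover : ∃ ρ : ℝ, 0 < ρ ∧ ∀ x : E, ∃ m : d → ℤ, ‖x - lat b m‖ ≤ ρ := by
  refine ⟨∑ i, ‖b i‖ + 1, by positivity, fun x => ?_⟩
  refine ⟨fun i => ⌊b.repr x i⌋, ?_⟩
  have hx : x = ∑ i, b.repr x i • b i := (b.sum_repr x).symm
  have e : x - lat b (fun i => ⌊b.repr x i⌋) = ∑ i, Int.fract (b.repr x i) • b i := by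
    rw [lat_apply]
    nth_rw 1 [hx]
    rw [← Finset.sum_sub_distrib]
    refine Finset.sum_congr rfl fun i _ => ?_
    rw [← sub_smul]
    rfl
  rw [e]
  have h1 : ‖∑ i, Int.fract (b.repr x i) • b i‖ ≤ ∑ i, ‖b i‖ := by
    refine (norm_sum_le _ _).trans (Finset.sum_le_sum fun i _ => ?_)
    rw [norm_smul, Real.norm_eq_abs, abs_of_nonneg (Int.fract_nonneg _)]
    exact mul_le_of_le_one_left (norm_nonneg _) (Int.fract_lt_one _).le
  linarith

/-- The large scale end. -/
theorem large_scale (T0 : ℝ) (hT0 : 0 < T0) :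
    ∃ m : ℕ, ∀ x : E, eT b (T0 * 2 ^ (m + 1)) x ≤ 1 / 2 := by
  obtain ⟨ρ, hρ, h⟩ := exists_cover b
  obtain ⟨m, hm⟩ := pow_unbounded_of_one_lt (2 * π * ρ ^ 2 / T0) (show (1 : ℝ) < 2 by norm_num)
  refine ⟨m, fun x => ?_⟩
  obtain ⟨k, hk⟩ := h x
  have hT : 0 < T0 * 2 ^ (m + 1) := by positivity
  have h1 := eT_le b hT x k
  have h2 := pow_le_pow_left₀ (norm_nonneg _) hk 2
  rw [div_lt_iff₀ hT0] at hm
  have h3 : T0 * 2 ^ (m + 1) * eT b (T0 * 2 ^ (m + 1)) x ≤ T0 * 2 ^ (m + 1) * (1 / 2) := by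
    have : π * ‖x - lat b k‖ ^ 2 ≤ π * ρ ^ 2 := mul_le_mul_of_nonneg_left h2 pi_pos.le
    have e2 : T0 * 2 ^ (m + 1) * (1 / 2) = 2 ^ m * T0 := by ring
    rw [e2]
    have : π * ρ ^ 2 ≤ 2 * π * ρ ^ 2 := by
      have : 0 ≤ π * ρ ^ 2 := by positivity
      linarith
    linarith
  exact le_of_mul_le_mul_left h3 hT

lemma jT_sum (T0 : ℝ) (hT0 : 0 < T0) (N s : ℕ) :
    ∑ j ∈ Finset.range N, jT b (T0 * 2 ^ (j + 1 + s)) ≤ Fintype.card d * log 2 := by
  have tele : ∑ j ∈ Finset.range N, jT b (T0 * 2 ^ (j + 1 + s))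
      = (lT b (T0 * 2 ^ (N + s + 1)) 0 - lT b (T0 * 2 ^ (N + s)) 0)
        - (lT b (T0 * 2 ^ (s + 1)) 0 - lT b (T0 * 2 ^ s) 0) := by
    induction N with
    | zero => simp
    | succ N ih =>
      rw [Finset.sum_range_succ, ih]
      unfold jT
      rw [show T0 * 2 ^ (N + 1 + s) / 2 = T0 * 2 ^ (N + s) by ring,
        show 2 * (T0 * 2 ^ (N + 1 + s)) = T0 * 2 ^ (N + 1 + s + 1) by ring,
        show N + s + 1 = N + 1 + s by ring]
      ring
  rw [tele]
  have h1 : lT b (T0 * 2 ^ s) 0 ≤ lT b (T0 * 2 ^ (s + 1)) 0 := by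
    apply lT_mono b (by positivity)
    rw [pow_succ]
    have : 0 < T0 * 2 ^ s := by positivity
    linarith
  have h2 : lT b (T0 * 2 ^ (N + s)) 0 ≥ lT b (T0 * 2 ^ (N + s + 1) / 4) 0 := by
    apply lT_mono b (by positivity)
    rw [pow_succ]
    have : 0 < T0 * 2 ^ (N + s) := by positivity
    linarith
  have h3 := lT_count b (show 0 < T0 * 2 ^ (N + s + 1) / 4 by positivity)
  rw [show 4 * (T0 * 2 ^ (N + s + 1) / 4) = T0 * 2 ^ (N + s + 1) by ring] at h3
  linarith

/-- The two sided bound for the embedding kernel. -/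
theorem main_bound : ∃ (N : ℕ) (T A : ℕ → ℝ), (∀ j, 0 < T j) ∧ (∀ j, 0 ≤ A j) ∧
    ∀ x : E, (π / 4 * RR b x ^ 2 ≤ 264 * ∑ j ∈ Finset.range N, A j * eT b (T j) x) ∧
      ∀ m, ∑ j ∈ Finset.range N, A j * eT b (T j) x ≤
        π * (2 * Fintype.card d * log 2 + 1) * ‖x - lat b m‖ ^ 2 := by
  obtain ⟨T1, hT1, hsmall⟩ := small_scale b
  set T0 := T1 / 2 with hT0def
  have hT0 : 0 < T0 := by positivity
  obtain ⟨m, hm⟩ := large_scale b T0 hT0
  refine ⟨m + 2, fun j => T0 * 2 ^ j, fun j => if j ≤ m then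
    T0 * 2 ^ j * (jT b (T0 * 2 ^ (j + 1)) + jT b (T0 * 2 ^ (j + 2))) else T0 * 2 ^ j,
    fun j => by positivity, fun j => ?_, fun x => ?_⟩
  · beta_reduce
    split_ifs
    · have h1 := jT_nonneg b (show 0 < T0 * 2 ^ (j + 1) by positivity)
      have h2 := jT_nonneg b (show 0 < T0 * 2 ^ (j + 2) by positivity)
      positivity
    · positivity
  · have hsum : ∑ j ∈ Finset.range (m + 2), (if j ≤ m then
        T0 * 2 ^ j * (jT b (T0 * 2 ^ (j + 1)) + jT b (T0 * 2 ^ (j + 2))) else T0 * 2 ^ j) *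
          eT b (T0 * 2 ^ j) x
        = ∑ j ∈ Finset.range (m + 1), wt (fun k => T0 * 2 ^ k) (fun k => eT b (T0 * 2 ^ k) x)
          (fun k => jT b (T0 * 2 ^ k)) j
          + T0 * 2 ^ (m + 1) * eT b (T0 * 2 ^ (m + 1)) x := by
      rw [Finset.sum_range_succ, if_neg (by omega)]
      congr 1
      refine Finset.sum_congr rfl fun j hj => ?_
      rw [if_pos (by have := Finset.mem_range.mp hj; omega)]
      rfl
    simp only
    rw [hsum]
    constructor
    · have h1 := (scales b hT0 x).total (by norm_num) m (hm x)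
      have h2 := hsmall x
      have e : T0 * 2 ^ 1 = T1 := by rw [hT0def]; ring
      simp only [e] at h1
      refine h2.trans (h1.trans (le_of_eq ?_))
      norm_num
    · intro k
      have hb : ∀ j, T0 * 2 ^ j * eT b (T0 * 2 ^ j) x ≤ π * ‖x - lat b k‖ ^ 2 :=
        fun j => eT_le b (by positivity) x k
      set P := π * ‖x - lat b k‖ ^ 2 with hP
      have hP0 : 0 ≤ P := by positivity
      have s1 := jT_sum b T0 hT0 (m + 1) 0
      have s2 := jT_sum b T0 hT0 (m + 1) 1
      have h3 : ∑ j ∈ Finset.range (m + 1), wt (fun k => T0 * 2 ^ k)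
          (fun k => eT b (T0 * 2 ^ k) x) (fun k => jT b (T0 * 2 ^ k)) j
          ≤ ∑ j ∈ Finset.range (m + 1),
            (jT b (T0 * 2 ^ (j + 1 + 0)) + jT b (T0 * 2 ^ (j + 1 + 1))) * P := by
        refine Finset.sum_le_sum fun j _ => ?_
        unfold wt
        have h1 := jT_nonneg b (show 0 < T0 * 2 ^ (j + 1) by positivity)
        have h2 := jT_nonneg b (show 0 < T0 * 2 ^ (j + 2) by positivity)
        have := mul_le_mul_of_nonneg_left (hb j) (add_nonneg h1 h2)
        calc _ = (jT b (T0 * 2 ^ (j + 1)) + jT b (T0 * 2 ^ (j + 2))) *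
              (T0 * 2 ^ j * eT b (T0 * 2 ^ j) x) := by ring
          _ ≤ _ := this
      rw [← Finset.sum_mul, Finset.sum_add_distrib] at h3
      have h4 := mul_le_mul_of_nonneg_right (add_le_add s1 s2) hP0
      have h5 := hb (m + 1)
      calc _ ≤ (Fintype.card d * log 2 + Fintype.card d * log 2) * P + P := by linarith
        _ = _ := by rw [hP]; ring

end Pool.Agent.H.MP_b892c7_gt
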