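import Pool.Agent.H.MP_b892c7_gt.Dup

set_option autoImplicit false
set_option linter.unusedSectionVars false

namespace Pool.Agent.H.MP_b892c7_gt

open Real

variable {d : Type*} [Fintype d] [DecidableEq d]
variable {E : Type*} [NormedAddCommGroup E] [InnerProductSpace ℝ E]
variable {φ : (d → ℤ) →+ E}

theorem sum_nc_sq (h : GS φ) {a : ℝ} (ha : 0 < a) (x : E) :
    ∑ c, nc φ (2 * a) x c ^ 2 = th φ a x * th φ a 0 := by
  rw [F1 h ha x 0]
  refine Finset.sum_congr rfl fun c _ => ?_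
  rw [add_zero, sub_zero, sq]

/-- The Regev and Stephens-Davidowitz inequality. -/
theorem rsd (h : GS φ) {a : ℝ} (ha : 0 < a) (u v : E) :
    (th φ a u * th φ a v) ^ 2 ≤ th φ a (u + v) * th φ a (u - v) * th φ a 0 ^ 2 := by
  rw [F1 h ha u v]
  refine (Finset.sum_mul_sq_le_sq_mul_sq _ _ _).trans (le_of_eq ?_)
  rw [sum_nc_sq h ha, sum_nc_sq h ha]
  ring

lemma two_half (m : d → ℤ) : (1 / 2 : ℝ) • φ m + (1 / 2 : ℝ) • φ m = φ m := by
  rw [← smul_add, half_double]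

theorem half_le (h : GS φ) {a : ℝ} (ha : 0 < a) (m : d → ℤ) :
    th φ a ((1 / 2 : ℝ) • φ m) ≤ th φ a 0 := by
  have h1 := rsd h ha ((1 / 2 : ℝ) • φ m) ((1 / 2 : ℝ) • φ m)
  rw [two_half, sub_self] at h1
  have h2 : th φ a (φ m) = th φ a 0 := by
    have := th_add (φ := φ) a 0 m
    rwa [zero_add] at this
  rw [h2] at h1
  have hp := th_pos h ha ((1 / 2 : ℝ) • φ m)
  have h0 := th_pos h ha (0 : E)
  by_contra hc
  push Not at hc
  have : th φ a 0 ^ 4 < th φ a ((1 / 2 : ℝ) • φ m) ^ 4 :=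
    pow_lt_pow_left₀ hc h0.le (by norm_num)
  nlinarith [this, h1]

theorem torsion_ge (h : GS φ) {a : ℝ} (ha : 0 < a) (x : E) (m : d → ℤ) :
    th φ a x * th φ a ((1 / 2 : ℝ) • φ m) ≤
      th φ a (x + (1 / 2 : ℝ) • φ m) * th φ a 0 := by
  have h1 := rsd h ha x ((1 / 2 : ℝ) • φ m)
  have h2 : th φ a (x - (1 / 2 : ℝ) • φ m) = th φ a (x + (1 / 2 : ℝ) • φ m) := by
    have := th_add (φ := φ) a (x - (1 / 2 : ℝ) • φ m) m
    rw [← this]
    congr 1
    module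
  rw [h2] at h1
  have hp := th_pos h ha (x + (1 / 2 : ℝ) • φ m)
  have h0 := th_pos h ha (0 : E)
  have hx := th_pos h ha x
  have hm := th_pos h ha ((1 / 2 : ℝ) • φ m)
  refine le_of_sq_le_sq' ?_ (by positivity)
  nlinarith [h1]
where
  le_of_sq_le_sq' {a b : ℝ} (h : a ^ 2 ≤ b ^ 2) (hb : 0 ≤ b) : a ≤ b :=
    le_of_abs_le (by simpa [abs_of_nonneg hb] using sq_le_sq.mp h)

lemma nc_zero_eq (a : ℝ) (c : d → ZMod 2) : nc φ a 0 c = th φ a ((1 / 2 : ℝ) • φ (lft c)) := by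
  unfold nc
  rw [zero_sub, smul_neg, th_neg]

lemma nc_zero_le (h : GS φ) {a : ℝ} (ha : 0 < a) (c : d → ZMod 2) : nc φ a 0 c ≤ th φ a 0 := by
  rw [nc_zero_eq]
  exact half_le h ha _

/-- `J ≥ 0`. -/
theorem J_nonneg (h : GS φ) {a : ℝ} (ha : 0 < a) :
    th φ a 0 ^ 2 ≤ th φ (2 * a) 0 * th φ (a / 2) 0 := by
  have h1 := sum_nc_sq h ha (0 : E)
  have h2 := F2 h (show 0 < a / 2 by positivity) (0 : E)
  rw [show 4 * (a / 2) = 2 * a by ring] at h2
  rw [sq, ← h1, h2, Finset.mul_sum]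
  refine Finset.sum_le_sum fun c _ => ?_
  rw [sq]
  exact mul_le_mul_of_nonneg_right (nc_zero_le h (by positivity) c)
    (nc_pos h (by positivity) _ _).le

/-- Monotonicity in the scale. -/
theorem mono_scale (h : GS φ) {a : ℝ} (ha : 0 < a) (x : E) :
    th φ (2 * a) x * th φ a 0 ^ 2 ≤ th φ a x ^ 2 * th φ (2 * a) 0 := by
  have h1 := F1 h ha x x
  have h2 := sum_nc_sq h ha (0 : E)
  rw [sub_self] at h1
  rw [sq (th φ a x), h1, sq (th φ a 0), ← h2, Finset.mul_sum, Finset.sum_mul]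
  refine Finset.sum_le_sum fun c _ => ?_
  have h3 : nc φ (2 * a) (x + x) c = th φ (2 * a) (x + (1 / 2 : ℝ) • φ (-lft c)) := by
    unfold nc
    congr 1
    rw [map_neg]
    module
  have h4 : nc φ (2 * a) 0 c = th φ (2 * a) ((1 / 2 : ℝ) • φ (-lft c)) := by
    rw [nc_zero_eq, map_neg, smul_neg, th_neg]
  have h5 := torsion_ge h (show 0 < 2 * a by positivity) x (-lft c)
  rw [← h3, ← h4] at h5
  have h6 := nc_pos h (show 0 < 2 * a by positivity) (0 : E) c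
  nlinarith [mul_le_mul_of_nonneg_right h5 h6.le]

theorem doubling (h : GS φ) {a : ℝ} (ha : 0 < a) (x : E) :
    th φ a x ^ 4 ≤ th φ a (x + x) * th φ a 0 ^ 3 := by
  have h1 := rsd h ha x x
  rw [sub_self] at h1
  nlinarith [h1]

theorem count_le (h : GS φ) {a : ℝ} (ha : 0 < a) :
    th φ a 0 ≤ 2 ^ Fintype.card d * th φ (4 * a) 0 := by
  rw [F2 h ha]
  refine (Finset.sum_le_card_nsmul _ _ _
    (fun c _ => nc_zero_le h (show 0 < 4 * a by positivity) c)).trans (le_of_eq ?_)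
  rw [Finset.card_univ, Fintype.card_fun, ZMod.card, nsmul_eq_mul]
  push_cast
  rfl

theorem hoelder_aux {ι : Type*} (s : Finset ι) (β : ι → ℝ) (hβ : ∀ i, 0 ≤ β i) :
    (∑ i ∈ s, β i ^ 2) ^ 3 ≤ (∑ i ∈ s, β i) ^ 2 * ∑ i ∈ s, β i ^ 4 := by
  have h1 : (∑ i ∈ s, β i ^ 2) ^ 2 ≤ (∑ i ∈ s, β i) * ∑ i ∈ s, β i ^ 3 := by
    have := Finset.sum_mul_sq_le_sq_mul_sq s (fun i => √(β i)) (fun i => √(β i) * β i)
    have e1 : ∀ i, √(β i) * (√(β i) * β i) = β i ^ 2 := fun i => by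
      rw [← mul_assoc, Real.mul_self_sqrt (hβ i), sq]
    have e2 : ∀ i, √(β i) ^ 2 = β i := fun i => Real.sq_sqrt (hβ i)
    have e3 : ∀ i, (√(β i) * β i) ^ 2 = β i ^ 3 := fun i => by
      rw [mul_pow, Real.sq_sqrt (hβ i)]; ring
    simp_rw [e1, e2, e3] at this
    exact this
  have h2 : (∑ i ∈ s, β i ^ 3) ^ 2 ≤ (∑ i ∈ s, β i ^ 2) * ∑ i ∈ s, β i ^ 4 := by
    have := Finset.sum_mul_sq_le_sq_mul_sq s (fun i => β i) (fun i => β i ^ 2)
    have e1 : ∀ i, β i * β i ^ 2 = β i ^ 3 := fun i => by ring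
    have e3 : ∀ i, (β i ^ 2) ^ 2 = β i ^ 4 := fun i => by ring
    simp_rw [e1, e3] at this
    exact this
  set S1 := ∑ i ∈ s, β i
  set S2 := ∑ i ∈ s, β i ^ 2
  set S3 := ∑ i ∈ s, β i ^ 3
  set S4 := ∑ i ∈ s, β i ^ 4
  have p1 : 0 ≤ S1 := Finset.sum_nonneg fun i _ => hβ i
  have p2 : 0 ≤ S2 := Finset.sum_nonneg fun i _ => by positivity
  have p3 : 0 ≤ S3 := Finset.sum_nonneg fun i _ => pow_nonneg (hβ i) 3
  have p4 : 0 ≤ S4 := Finset.sum_nonneg fun i _ => by positivity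
  rcases p2.eq_or_lt with h0 | h0
  · rw [← h0, zero_pow (by norm_num)]; positivity
  have h3 : S2 ^ 4 ≤ S1 ^ 2 * (S2 * S4) := by
    calc S2 ^ 4 = (S2 ^ 2) ^ 2 := by ring
      _ ≤ (S1 * S3) ^ 2 := pow_le_pow_left₀ (by positivity) h1 2
      _ = S1 ^ 2 * S3 ^ 2 := by ring
      _ ≤ S1 ^ 2 * (S2 * S4) := mul_le_mul_of_nonneg_left h2 (by positivity)
  have h4 : S2 * S2 ^ 3 ≤ S2 * (S1 ^ 2 * S4) := by nlinarith [h3]
  exact le_of_mul_le_mul_left h4 h0

theorem beta_sq (h : GS φ) {a : ℝ} (ha : 0 < a) (x : E) (c : d → ZMod 2) :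
    nc φ (2 * a) x c ^ 2 = ∑ c', nc φ (4 * a) x (c' + c) * nc φ (4 * a) 0 c' := by
  have h1 := F1 h (show 0 < 2 * a by positivity) ((1 / 2 : ℝ) • (x - φ (lft c)))
    ((1 / 2 : ℝ) • (x - φ (lft c)))
  rw [sub_self, ← smul_add, half_double] at h1
  rw [sq]
  refine h1.trans (Finset.sum_congr rfl fun c' _ => ?_)
  rw [nc_add, show 2 * (2 * a) = 4 * a by ring]

/-- The scale-growth inequality. -/
theorem scaleE (h : GS φ) {a : ℝ} (ha : 0 < a) (x : E) :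
    th φ a x ^ 3 * th φ a 0 ≤ th φ (a / 2) x ^ 2 * th φ (2 * a) x * th φ (2 * a) 0 := by
  have h2a : 0 < 2 * a := by positivity
  have h4a : 0 < 4 * a := by positivity
  have s1 : ∑ c, nc φ (2 * a) x c = th φ (a / 2) x := by
    rw [F2 h (show 0 < a / 2 by positivity) x, show 4 * (a / 2) = 2 * a by ring]
  have s2 := sum_nc_sq h ha x
  have sA : ∑ c, nc φ (4 * a) x c ^ 2 = th φ (2 * a) x * th φ (2 * a) 0 := by
    have := sum_nc_sq h h2a x
    rwa [show 2 * (2 * a) = 4 * a by ring] at this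
  have sB : ∑ c, nc φ (4 * a) (0 : E) c = th φ a 0 := (F2 h ha 0).symm
  have s4 : ∑ c, nc φ (2 * a) x c ^ 4 ≤ th φ a 0 ^ 2 * (th φ (2 * a) x * th φ (2 * a) 0) := by
    have e : ∀ c, nc φ (2 * a) x c ^ 4
        ≤ (∑ c', nc φ (4 * a) (0 : E) c') *
          ∑ c', nc φ (4 * a) x (c' + c) ^ 2 * nc φ (4 * a) (0 : E) c' := by
      intro c
      have e1 : nc φ (2 * a) x c ^ 4 = (nc φ (2 * a) x c ^ 2) ^ 2 := by ring
      rw [e1, beta_sq h ha]
      have := Finset.sum_mul_sq_le_sq_mul_sq (Finset.univ : Finset (d → ZMod 2))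
        (fun c' => √(nc φ (4 * a) (0 : E) c'))
        (fun c' => √(nc φ (4 * a) (0 : E) c') * nc φ (4 * a) x (c' + c))
      have hb : ∀ c', 0 ≤ nc φ (4 * a) (0 : E) c' := fun c' => (nc_pos h h4a _ _).le
      have e1 : ∀ c', √(nc φ (4 * a) (0 : E) c') *
          (√(nc φ (4 * a) (0 : E) c') * nc φ (4 * a) x (c' + c))
          = nc φ (4 * a) x (c' + c) * nc φ (4 * a) (0 : E) c' := fun c' => by
        rw [← mul_assoc, Real.mul_self_sqrt (hb c'), mul_comm]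
      have e2 : ∀ c', √(nc φ (4 * a) (0 : E) c') ^ 2 = nc φ (4 * a) (0 : E) c' :=
        fun c' => Real.sq_sqrt (hb c')
      have e3 : ∀ c', (√(nc φ (4 * a) (0 : E) c') * nc φ (4 * a) x (c' + c)) ^ 2
          = nc φ (4 * a) x (c' + c) ^ 2 * nc φ (4 * a) (0 : E) c' := fun c' => by
        rw [mul_pow, Real.sq_sqrt (hb c')]; ring
      simp_rw [e1, e2, e3] at this
      exact this
    calc ∑ c, nc φ (2 * a) x c ^ 4
        ≤ ∑ c, (∑ c', nc φ (4 * a) (0 : E) c') *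
          ∑ c', nc φ (4 * a) x (c' + c) ^ 2 * nc φ (4 * a) (0 : E) c' :=
          Finset.sum_le_sum fun c _ => e c
      _ = (∑ c', nc φ (4 * a) (0 : E) c') *
          ∑ c', (∑ c, nc φ (4 * a) x (c' + c) ^ 2) * nc φ (4 * a) (0 : E) c' := by
          rw [← Finset.mul_sum, Finset.sum_comm]
          congr 1
          refine Finset.sum_congr rfl fun c' _ => ?_
          rw [Finset.sum_mul]
      _ = (∑ c', nc φ (4 * a) (0 : E) c') *
          ∑ c', (∑ c, nc φ (4 * a) x c ^ 2) * nc φ (4 * a) (0 : E) c' := by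
          congr 1
          refine Finset.sum_congr rfl fun c' _ => ?_
          congr 1
          exact Equiv.sum_comp (Equiv.addLeft c') (fun c => nc φ (4 * a) x c ^ 2)
      _ = th φ a 0 ^ 2 * (th φ (2 * a) x * th φ (2 * a) 0) := by
          rw [← Finset.mul_sum, sA, sB]; ring
  have h0 := th_pos h ha (0 : E)
  have hH := hoelder_aux Finset.univ (fun c => nc φ (2 * a) x c)
    (fun c => (nc_pos h h2a x c).le)
  rw [s1, s2] at hH
  have h5 : th φ a 0 ^ 2 * (th φ a x ^ 3 * th φ a 0) ≤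
      th φ a 0 ^ 2 * (th φ (a / 2) x ^ 2 * th φ (2 * a) x * th φ (2 * a) 0) := by
    calc th φ a 0 ^ 2 * (th φ a x ^ 3 * th φ a 0) = (th φ a x * th φ a 0) ^ 3 := by ring
      _ ≤ th φ (a / 2) x ^ 2 * ∑ c, nc φ (2 * a) x c ^ 4 := hH
      _ ≤ th φ (a / 2) x ^ 2 * (th φ a 0 ^ 2 * (th φ (2 * a) x * th φ (2 * a) 0)) :=
          mul_le_mul_of_nonneg_left s4 (by positivity)
      _ = _ := by ring
  exact le_of_mul_le_mul_left h5 (by positivity)

/-- The Gaussian lower bound. -/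
theorem gauss_lower (h : GS φ) {a : ℝ} (ha : 0 < a) (x : E) :
    exp (-a * ‖x‖ ^ 2) * th φ a 0 ≤ th φ a x := by
  have hx := h.summable ha x
  have hx' := h.summable ha (-x)
  have h0 := h.summable ha (0 : E)
  have e : th φ a x = (th φ a x + th φ a (-x)) / 2 := by rw [th_neg]; ring
  rw [e]
  have hs : th φ a x + th φ a (-x)
      = ∑' m, (exp (-a * ‖x - φ m‖ ^ 2) + exp (-a * ‖-x - φ m‖ ^ 2)) :=
    (hx.tsum_add hx').symm
  rw [hs, le_div_iff₀ (by norm_num : (0 : ℝ) < 2)]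
  unfold th
  rw [← tsum_mul_left, ← tsum_mul_right]
  refine Summable.tsum_le_tsum (fun m => ?_) ((h0.mul_left _).mul_right _) (hx.add hx')
  rw [zero_sub, norm_neg, ← exp_add]
  have hp := parallelogram' x (φ m)
  have hn : ‖-x - φ m‖ = ‖x + φ m‖ := by
    rw [← norm_neg]; congr 1; abel
  rw [hn]
  set A := -a * ‖x - φ m‖ ^ 2
  set B := -a * ‖x + φ m‖ ^ 2
  have hAB : -a * ‖x‖ ^ 2 + -a * ‖φ m‖ ^ 2 = (A + B) / 2 := by
    simp only [A, B]
    linear_combination (a / 2) * hp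
  rw [hAB]
  have h1 : exp ((A + B) / 2) = exp (A / 2) * exp (B / 2) := by
    rw [← exp_add]; congr 1; ring
  have h2 : exp A = exp (A / 2) ^ 2 := by
    rw [← exp_nat_mul]; congr 1; push_cast; ring
  have h3 : exp B = exp (B / 2) ^ 2 := by
    rw [← exp_nat_mul]; congr 1; push_cast; ring
  rw [h1, h2, h3]
  nlinarith [sq_nonneg (exp (A / 2) - exp (B / 2))]

theorem gauss_lower' (h : GS φ) {a : ℝ} (ha : 0 < a) (x : E) (m : d → ℤ) :
    exp (-a * ‖x - φ m‖ ^ 2) * th φ a 0 ≤ th φ a x := by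
  have := gauss_lower h ha (x - φ m)
  rwa [th_sub] at this

theorem tilt (h : GS φ) {a : ℝ} (ha : 0 < a) (x : E) (R : ℝ) (hR : 0 ≤ R)
    (hx : ∀ m, R ≤ ‖x - φ m‖) :
    th φ a x ≤ exp (-(a / 2) * R ^ 2) * th φ (a / 2) x := by
  unfold th
  rw [← tsum_mul_left]
  refine Summable.tsum_le_tsum (fun m => ?_) (h.summable ha x)
    ((h.summable (by positivity) x).mul_left _)
  rw [← exp_add]
  apply exp_le_exp.mpr
  have := hx m
  have : R ^ 2 ≤ ‖x - φ m‖ ^ 2 := pow_le_pow_left₀ hR this 2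
  nlinarith

theorem th_anti (h : GS φ) {a b : ℝ} (ha : 0 < a) (hab : a ≤ b) (x : E) :
    th φ b x ≤ th φ a x := by
  unfold th
  refine Summable.tsum_le_tsum (fun m => ?_) (h.summable (ha.trans_le hab) x) (h.summable ha x)
  apply exp_le_exp.mpr
  nlinarith [sq_nonneg ‖x - φ m‖]

theorem one_le_th (h : GS φ) {a : ℝ} (ha : 0 < a) : 1 ≤ th φ a 0 := by
  have := (h.summable ha (0 : E)).le_tsum 0 (fun _ _ => (exp_pos _).le)
  simpa [th] using this

end Pool.Agent.H.MP_b892c7_gt
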