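import Pool.Agent.H.MP_b892c7_gt.Ineq

set_option autoImplicit false
set_option linter.unusedSectionVars false

namespace Pool.Agent.H.MP_b892c7_gt

open Real

section abstract

variable {V : Type*} [AddCommGroup V] [Fintype V]

/-- The elementary three term inequality behind the gap lemma. -/
lemma gap_aux {t a b : ℝ} (ht : 0 ≤ t) (ha : 0 ≤ a) (hb : 0 ≤ b) (ha1 : a ≤ 1)
    (hb1 : b ≤ 1) (ht1 : t ≤ 1) (h1 : a * b ≤ t) (h2 : t * b ≤ a) (h3 : t * a ≤ b) :
    t * (1 - t) * (a + b) ≤ 2 * (a * (1 - a) + b * (1 - b)) := by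
  rcases le_total b a with hba | hab
  · -- b ≤ a
    have e1 : 1 - t ≤ (1 - a) + a * (1 - b) := by nlinarith
    have e2 : b * (1 - t) ≤ a * (1 - a) + b * (1 - b) := by
      have : b * (1 - t) ≤ b * ((1 - a) + a * (1 - b)) := mul_le_mul_of_nonneg_left e1 hb
      have h4 : b * ((1 - a) + a * (1 - b)) ≤ a * (1 - a) + b * (1 - b) := by
        have h5 : b * (1 - a) ≤ a * (1 - a) := mul_le_mul_of_nonneg_right hba (by linarith)
        have h6 : b * (a * (1 - b)) ≤ b * (1 - b) := by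
          have : a * (1 - b) ≤ 1 - b := by nlinarith
          exact mul_le_mul_of_nonneg_left this hb
        nlinarith
      linarith
    have e3 : t * a * (1 - t) ≤ b * (1 - t) := mul_le_mul_of_nonneg_right h3 (by linarith)
    have e4 : t * (1 - t) * (a + b) ≤ 2 * (t * a * (1 - t)) := by
      have h7 : 0 ≤ t * (1 - t) := mul_nonneg ht (by linarith)
      nlinarith [mul_le_mul_of_nonneg_left hba h7]
    linarith
  · have e1 : 1 - t ≤ (1 - b) + b * (1 - a) := by nlinarith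
    have e2 : a * (1 - t) ≤ a * (1 - a) + b * (1 - b) := by
      have : a * (1 - t) ≤ a * ((1 - b) + b * (1 - a)) := mul_le_mul_of_nonneg_left e1 ha
      have h4 : a * ((1 - b) + b * (1 - a)) ≤ a * (1 - a) + b * (1 - b) := by
        have h5 : a * (1 - b) ≤ b * (1 - b) := mul_le_mul_of_nonneg_right hab (by linarith)
        have h6 : a * (b * (1 - a)) ≤ a * (1 - a) := by
          have : b * (1 - a) ≤ 1 - a := by nlinarith
          exact mul_le_mul_of_nonneg_left this ha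
        nlinarith
      linarith
    have e3 : t * b * (1 - t) ≤ a * (1 - t) := mul_le_mul_of_nonneg_right h2 (by linarith)
    have e4 : t * (1 - t) * (a + b) ≤ 2 * (t * b * (1 - t)) := by
      have h7 : 0 ≤ t * (1 - t) := mul_nonneg ht (by linarith)
      nlinarith [mul_le_mul_of_nonneg_left hab h7]
    linarith

structure Ker (κ : V → ℝ) : Prop where
  pos : ∀ c, 0 < κ c
  le_one : ∀ c, κ c ≤ 1
  mul_le : ∀ c c', κ c * κ c' ≤ κ (c + c')

variable {κ : V → ℝ}

theorem Ker.gap (h : Ker κ) (h2 : ∀ c : V, c + c = 0) (c : V) :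
    κ c * (1 - κ c) * ∑ c', κ c' ≤ 2 * ∑ c', κ c' * (1 - κ c') := by
  have e1 : ∑ c', κ (c' + c) = ∑ c', κ c' := Equiv.sum_comp (Equiv.addRight c) κ
  have e2 : ∑ c', κ (c' + c) * (1 - κ (c' + c)) = ∑ c', κ c' * (1 - κ c') :=
    Equiv.sum_comp (Equiv.addRight c) (fun c' => κ c' * (1 - κ c'))
  have key : κ c * (1 - κ c) * ∑ c', (κ c' + κ (c' + c)) ≤
      2 * ∑ c', (κ c' * (1 - κ c') + κ (c' + c) * (1 - κ (c' + c))) := by
    rw [Finset.mul_sum, Finset.mul_sum]
    refine Finset.sum_le_sum fun c' _ => ?_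
    refine gap_aux (h.pos c).le (h.pos c').le (h.pos _).le (h.le_one _) (h.le_one _)
      (h.le_one _) ?_ ?_ ?_
    · have := h.mul_le c' (c' + c)
      rwa [← add_assoc, h2, zero_add] at this
    · have := h.mul_le c (c' + c)
      rwa [add_comm c, add_assoc, h2, add_zero] at this
    · have := h.mul_le c c'
      rwa [add_comm c c'] at this
  rw [Finset.sum_add_distrib, Finset.sum_add_distrib, e1, e2] at key
  linarith

theorem Ker.bad_mass (h : Ker κ) :
    ∑ c ∈ Finset.univ.filter (fun c => κ c ≤ 1 / 2), κ c ≤ 2 * ∑ c, κ c * (1 - κ c) := by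
  rw [Finset.mul_sum]
  calc ∑ c ∈ Finset.univ.filter (fun c => κ c ≤ 1 / 2), κ c
      ≤ ∑ c ∈ Finset.univ.filter (fun c => κ c ≤ 1 / 2), 2 * (κ c * (1 - κ c)) := by
        refine Finset.sum_le_sum fun c hc => ?_
        have := (Finset.mem_filter.mp hc).2
        nlinarith [h.pos c]
    _ ≤ ∑ c, 2 * (κ c * (1 - κ c)) := by
        refine Finset.sum_le_sum_of_subset_of_nonneg (Finset.filter_subset _ _) ?_
        intro c _ _
        have := h.pos c
        have := h.le_one c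
        nlinarith

theorem Ker.good (h : Ker κ) (h2 : ∀ c : V, c + c = 0) {c : V} (hc : 1 / 2 < κ c) :
    (1 - κ c) * ∑ c', κ c' ≤ 4 * ∑ c', κ c' * (1 - κ c') := by
  have h1 := h.gap h2 c
  have hA : 0 ≤ ∑ c', κ c' := Finset.sum_nonneg fun c _ => (h.pos c).le
  have : (1 / 2) * ((1 - κ c) * ∑ c', κ c') ≤ κ c * ((1 - κ c) * ∑ c', κ c') := by
    apply mul_le_mul_of_nonneg_right hc.le
    exact mul_nonneg (by linarith [h.le_one c]) hA
  nlinarith

theorem Ker.bad (h : Ker κ) (h2 : ∀ c : V, c + c = 0) {c : V} (hc : κ c ≤ 1 / 2) :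
    κ c * ∑ c', κ c' ≤ 4 * ∑ c', κ c' * (1 - κ c') := by
  have h1 := h.gap h2 c
  have hA : 0 ≤ ∑ c', κ c' := Finset.sum_nonneg fun c _ => (h.pos c).le
  have : (1 / 2) * (κ c * ∑ c', κ c') ≤ (1 - κ c) * (κ c * ∑ c', κ c') := by
    apply mul_le_mul_of_nonneg_right (by linarith)
    exact mul_nonneg (h.pos c).le hA
  nlinarith

theorem Ker.sum_pos (h : Ker κ) : 0 < ∑ c', κ c' :=
  Finset.sum_pos (fun c _ => h.pos c) ⟨0, Finset.mem_univ _⟩

/-- Under smallness of the gap, good classes are closed under addition. -/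
theorem Ker.good_add (h : Ker κ) (h2 : ∀ c : V, c + c = 0)
    (hs : 32 * ∑ c', κ c' * (1 - κ c') ≤ ∑ c', κ c') {c c' : V}
    (hc : 1 / 2 < κ c) (hc' : 1 / 2 < κ c') : 1 / 2 < κ (c + c') := by
  have hA := h.sum_pos
  have e : ∀ c : V, 1 / 2 < κ c → 7 / 8 ≤ κ c := by
    intro c hc
    have h1 := h.good h2 hc
    have h3 : (1 - κ c) * ∑ c', κ c' ≤ (1 / 8) * ∑ c', κ c' := by linarith
    have := le_of_mul_le_mul_right h3 hA
    linarith
  have h1 := e c hc
  have h3 := e c' hc'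
  have h4 := h.mul_le c c'
  nlinarith

theorem Ker.nojump (h : Ker κ) (h2 : ∀ c : V, c + c = 0)
    (hs : 32 * ∑ c', κ c' * (1 - κ c') ≤ ∑ c', κ c') {c : V} (hc : κ c ≤ 1 / 2) :
    ∑ c', κ (c' + c) * κ c' ≤ 4 * ∑ c', κ c' * (1 - κ c') := by
  have hb := h.bad_mass
  have key : ∀ c', κ (c' + c) * κ c' ≤
      (if κ (c' + c) ≤ 1 / 2 then κ (c' + c) else 0) + (if κ c' ≤ 1 / 2 then κ c' else 0) := by
    intro c'
    by_cases h1 : κ c' ≤ 1 / 2
    · have p1 : κ (c' + c) * κ c' ≤ κ c' := by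
        have := h.le_one (c' + c)
        have := h.pos c'
        nlinarith
      have p2 : 0 ≤ (if κ (c' + c) ≤ 1 / 2 then κ (c' + c) else 0) := by
        split_ifs
        · exact (h.pos _).le
        · exact le_refl _
      rw [if_pos h1]
      linarith
    · by_cases h3 : κ (c' + c) ≤ 1 / 2
      · rw [if_pos h3, if_neg h1]
        have := h.le_one c'
        have := h.pos (c' + c)
        nlinarith
      · exfalso
        push Not at h1 h3
        have := h.good_add h2 hs h1 h3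
        rw [← add_assoc, h2, zero_add] at this
        linarith
  have e2 : ∑ c', (if κ (c' + c) ≤ 1 / 2 then κ (c' + c) else 0)
      = ∑ c', (if κ c' ≤ 1 / 2 then κ c' else 0) :=
    Equiv.sum_comp (Equiv.addRight c) (fun c' => if κ c' ≤ 1 / 2 then κ c' else 0)
  calc ∑ c', κ (c' + c) * κ c' ≤ ∑ c', ((if κ (c' + c) ≤ 1 / 2 then κ (c' + c) else 0)
        + (if κ c' ≤ 1 / 2 then κ c' else 0)) := Finset.sum_le_sum fun c' _ => key c'
    _ = 2 * ∑ c', (if κ c' ≤ 1 / 2 then κ c' else 0) := by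
        rw [Finset.sum_add_distrib, e2]; ring
    _ = 2 * ∑ c ∈ Finset.univ.filter (fun c => κ c ≤ 1 / 2), κ c := by
        rw [Finset.sum_filter]
    _ ≤ 4 * ∑ c', κ c' * (1 - κ c') := by linarith

end abstract

variable {d : Type*} [Fintype d] [DecidableEq d]
variable {E : Type*} [NormedAddCommGroup E] [InnerProductSpace ℝ E]
variable {φ : (d → ℤ) →+ E}

/-- The normalized mass of a parity class. -/
noncomputable def kp (φ : (d → ℤ) →+ E) (b : ℝ) (c : d → ZMod 2) : ℝ :=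
  nc φ b 0 c / th φ b 0

lemma two_tor (c : d → ZMod 2) : c + c = 0 := by
  ext i
  simp only [Pi.add_apply, Pi.zero_apply]
  rw [← two_mul]
  have : (2 : ZMod 2) = 0 := by decide
  rw [this, zero_mul]

lemma nc_zero_red (b : ℝ) (w : d → ℤ) :
    nc φ b 0 (red w) = th φ b ((1 / 2 : ℝ) • φ w) := by
  rw [nc_zero_eq]
  obtain ⟨k, hk⟩ := lft_red w
  rw [hk]
  have : (1 / 2 : ℝ) • φ (w - (k + k)) = (1 / 2 : ℝ) • φ w - φ k := by
    rw [map_sub, map_add]
    module
  rw [this, th_sub]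

theorem kp_ker (h : GS φ) {b : ℝ} (hb : 0 < b) : Ker (kp φ b) where
  pos c := div_pos (nc_pos h hb _ _) (th_pos h hb _)
  le_one c := (div_le_one (th_pos h hb _)).mpr (nc_zero_le h hb c)
  mul_le c c' := by
    have h0 := th_pos h hb (0 : E)
    unfold kp
    rw [div_mul_div_comm, div_le_div_iff₀ (by positivity) h0]
    have h1 := torsion_ge h hb ((1 / 2 : ℝ) • φ (lft c)) (lft c')
    rw [← nc_zero_eq, ← nc_zero_eq] at h1
    have h2 : th φ b ((1 / 2 : ℝ) • φ (lft c) + (1 / 2 : ℝ) • φ (lft c'))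
        = nc φ b 0 (c + c') := by
      rw [nc_zero_eq]
      obtain ⟨m, hm⟩ := lft_add c c'
      rw [hm]
      have : (1 / 2 : ℝ) • φ (lft c + lft c' - (m + m))
          = ((1 / 2 : ℝ) • φ (lft c) + (1 / 2 : ℝ) • φ (lft c')) - φ m := by
        rw [map_sub, map_add, map_add]
        module
      rw [this, th_sub]
    rw [h2] at h1
    nlinarith [mul_le_mul_of_nonneg_right h1 h0.le]

theorem sum_kp (h : GS φ) {s : ℝ} (hs : 0 < s) :
    ∑ c, kp φ (4 * s) c = th φ s 0 / th φ (4 * s) 0 := by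
  unfold kp
  rw [← Finset.sum_div, F2 h hs]

theorem sum_kp_sq (h : GS φ) {s : ℝ} (hs : 0 < s) :
    ∑ c, kp φ (4 * s) c ^ 2 = th φ (2 * s) 0 ^ 2 / th φ (4 * s) 0 ^ 2 := by
  unfold kp
  simp_rw [div_pow]
  rw [← Finset.sum_div]
  have := sum_nc_sq h (show 0 < 2 * s by positivity) (0 : E)
  rw [show 2 * (2 * s) = 4 * s by ring] at this
  rw [this, sq (th φ (2 * s) 0)]

theorem kp_half_sq (h : GS φ) {s : ℝ} (hs : 0 < s) (c : d → ZMod 2) :
    kp φ (2 * s) c ^ 2 * ∑ c', kp φ (4 * s) c' ^ 2 =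
      ∑ c', kp φ (4 * s) (c' + c) * kp φ (4 * s) c' := by
  rw [sum_kp_sq h hs]
  unfold kp
  have h0 := th_pos h (show 0 < 2 * s by positivity) (0 : E)
  have h4 := th_pos h (show 0 < 4 * s by positivity) (0 : E)
  rw [div_pow, beta_sq h hs]
  simp_rw [div_mul_div_comm]
  rw [← Finset.sum_div]
  generalize th φ (2 * s) 0 = T2 at *
  generalize th φ (4 * s) 0 = T4 at *
  field_simp

end Pool.Agent.H.MP_b892c7_gt
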