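import Pool.Agent.H.MP_b892c7_gt.Basic

set_option autoImplicit false
set_option linter.unusedSectionVars false

namespace Pool.Agent.H.MP_b892c7_gt

open Real

/-- Sums of products over integer vectors. -/
theorem summable_prod_pi {d : Type*} [Fintype d] [DecidableEq d] {f : ℤ → ℝ}
    (hf : Summable f) (h0 : ∀ m, 0 ≤ f m) : Summable fun m : d → ℤ => ∏ i, f (m i) := by
  refine summable_of_sum_le (c := (∑' m, f m) ^ Fintype.card d)
    (fun m => Finset.prod_nonneg fun i _ => h0 _) fun u => ?_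
  have hsub : u ⊆ Fintype.piFinset (fun i : d => u.image fun m => m i) := by
    intro m hm
    rw [Fintype.mem_piFinset]
    intro i
    exact Finset.mem_image_of_mem _ hm
  calc ∑ m ∈ u, ∏ i, f (m i)
      ≤ ∑ m ∈ Fintype.piFinset (fun i : d => u.image fun m => m i), ∏ i, f (m i) :=
        Finset.sum_le_sum_of_subset_of_nonneg hsub fun m _ _ =>
          Finset.prod_nonneg fun i _ => h0 _
    _ = ∏ i : d, ∑ k ∈ u.image (fun m => m i), f k := by
        rw [Finset.prod_univ_sum]
    _ ≤ ∏ i : d, ∑' m, f m := by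
        refine Finset.prod_le_prod (fun i _ => Finset.sum_nonneg fun k _ => h0 _) fun i _ => ?_
        exact hf.sum_le_tsum _ fun k _ => h0 _
    _ = (∑' m, f m) ^ Fintype.card d := by
        rw [Finset.prod_const, Finset.card_univ]

theorem summable_gauss_int {a : ℝ} (ha : 0 < a) :
    Summable fun m : ℤ => exp (-a * (m : ℝ) ^ 2) := by
  have h1 : Summable fun m : ℤ => (1 / (a)) * (1 / (m : ℝ) ^ 2) :=
    (Real.summable_one_div_int_pow.mpr (by norm_num)).mul_left _
  have h2 : Summable fun m : ℤ => (if m = 0 then (1 : ℝ) else 0) :=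
    summable_of_ne_finset_zero (s := {0}) fun b hb => by
      rw [if_neg (by simpa using hb)]
  refine Summable.of_nonneg_of_le (fun _ => (exp_pos _).le) (fun m => ?_) (h1.add h2)
  by_cases hm : m = 0
  · subst hm; simp
  · rw [if_neg hm, add_zero]
    have hm' : (0 : ℝ) < (m : ℝ) ^ 2 := by
      have : (m : ℝ) ≠ 0 := by exact_mod_cast hm
      positivity
    rw [neg_mul, exp_neg, one_div_mul_one_div, ← one_div]
    apply one_div_le_one_div_of_le (by positivity)
    have := add_one_le_exp (a * (m : ℝ) ^ 2)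
    nlinarith

variable {d : Type*} [Fintype d] {E : Type*} [NormedAddCommGroup E] [InnerProductSpace ℝ E]

/-- If the coordinates are controlled by the norm then Gaussian sums converge. -/
theorem GS_of_coord [DecidableEq d] (φ : (d → ℤ) →+ E) (c : ℝ) (hc : 0 < c)
    (h : ∀ (m : d → ℤ) (i : d), |(m i : ℝ)| ≤ c * ‖φ m‖) : GS φ := by
  intro a ha
  set n : ℝ := Fintype.card d + 1 with hn
  have hn0 : 0 < n := by positivity
  have h1 : ∀ m : d → ℤ, ∑ i, (m i : ℝ) ^ 2 ≤ n * c ^ 2 * ‖φ m‖ ^ 2 := by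
    intro m
    calc ∑ i, (m i : ℝ) ^ 2 ≤ ∑ i : d, c ^ 2 * ‖φ m‖ ^ 2 := by
          refine Finset.sum_le_sum fun i _ => ?_
          rw [← mul_pow, ← sq_abs]
          exact pow_le_pow_left₀ (abs_nonneg _) (h m i) 2
      _ = Fintype.card d * (c ^ 2 * ‖φ m‖ ^ 2) := by
          rw [Finset.sum_const, Finset.card_univ, nsmul_eq_mul]
      _ ≤ n * c ^ 2 * ‖φ m‖ ^ 2 := by
          rw [mul_assoc]
          apply mul_le_mul_of_nonneg_right _ (by positivity)
          rw [hn]; linarith
  set a' := a / (n * c ^ 2) with ha'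
  have ha'0 : 0 < a' := by positivity
  refine Summable.of_nonneg_of_le (fun _ => (exp_pos _).le) (fun m => ?_)
    (summable_prod_pi (d := d) (summable_gauss_int ha'0) (fun _ => (exp_pos _).le))
  rw [← exp_sum]
  apply exp_le_exp.mpr
  rw [← Finset.mul_sum]
  have := mul_le_mul_of_nonneg_left (h1 m) ha'0.le
  have e : a' * (n * c ^ 2 * ‖φ m‖ ^ 2) = a * ‖φ m‖ ^ 2 := by
    rw [ha']; field_simp
  linarith

/-- The lattice of integer combinations of a basis. -/
noncomputable def lat (b : Module.Basis d ℝ E) : (d → ℤ) →+ E where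
  toFun m := ∑ i, (m i : ℝ) • b i
  map_zero' := by simp
  map_add' m k := by
    simp only [Pi.add_apply, Int.cast_add, add_smul, Finset.sum_add_distrib]

lemma lat_apply (b : Module.Basis d ℝ E) (m : d → ℤ) : lat b m = ∑ i, (m i : ℝ) • b i := rfl

variable [FiniteDimensional ℝ E]

/-- Dual basis vectors. -/
noncomputable def dv (b : Module.Basis d ℝ E) (i : d) : E :=
  (InnerProductSpace.toDual ℝ E).symm (LinearMap.toContinuousLinearMap (b.coord i))

lemma inner_dv (b : Module.Basis d ℝ E) (i : d) (x : E) :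
    inner ℝ (dv b i) x = b.repr x i := by
  unfold dv
  rw [InnerProductSpace.toDual_symm_apply]
  rfl

/-- The dual lattice. -/
noncomputable def dlat (b : Module.Basis d ℝ E) : (d → ℤ) →+ E where
  toFun w := ∑ i, (w i : ℝ) • dv b i
  map_zero' := by simp
  map_add' m k := by
    simp only [Pi.add_apply, Int.cast_add, add_smul, Finset.sum_add_distrib]

lemma dlat_apply (b : Module.Basis d ℝ E) (m : d → ℤ) : dlat b m = ∑ i, (m i : ℝ) • dv b i := rfl

lemma inner_dlat (b : Module.Basis d ℝ E) (w : d → ℤ) (x : E) :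
    inner ℝ (dlat b w) x = ∑ i, (w i : ℝ) * b.repr x i := by
  rw [dlat_apply, sum_inner]
  refine Finset.sum_congr rfl fun i _ => ?_
  rw [real_inner_smul_left, inner_dv]

lemma repr_lat [DecidableEq d] (b : Module.Basis d ℝ E) (m : d → ℤ) (i : d) :
    b.repr (lat b m) i = m i := by
  rw [lat_apply, map_sum]
  simp [Finsupp.single_apply]

theorem GS_lat [DecidableEq d] (b : Module.Basis d ℝ E) : GS (lat b) := by
  obtain ⟨c, hc⟩ : ∃ c : ℝ, ∀ i, ‖dv b i‖ ≤ c := by
    refine ⟨∑ i, ‖dv b i‖, fun i => ?_⟩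
    exact Finset.single_le_sum (f := fun i => ‖dv b i‖) (fun i _ => norm_nonneg _)
      (Finset.mem_univ i)
  refine GS_of_coord _ (|c| + 1) (by positivity) fun m i => ?_
  rw [← repr_lat b m i, ← inner_dv]
  refine (abs_real_inner_le_norm _ _).trans ?_
  apply mul_le_mul_of_nonneg_right _ (norm_nonneg _)
  exact (hc i).trans (by linarith [le_abs_self c])

theorem GS_dlat [DecidableEq d] (b : Module.Basis d ℝ E) : GS (dlat b) := by
  obtain ⟨c, hc⟩ : ∃ c : ℝ, ∀ i, ‖b i‖ ≤ c := by
    refine ⟨∑ i, ‖b i‖, fun i => ?_⟩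
    exact Finset.single_le_sum (f := fun i => ‖b i‖) (fun i _ => norm_nonneg _)
      (Finset.mem_univ i)
  refine GS_of_coord _ (|c| + 1) (by positivity) fun m i => ?_
  have e : (m i : ℝ) = inner ℝ (dlat b m) (b i) := by
    rw [inner_dlat]
    simp [Finsupp.single_apply]
  rw [e]
  refine (abs_real_inner_le_norm _ _).trans ?_
  rw [mul_comm]
  apply mul_le_mul_of_nonneg_right _ (norm_nonneg _)
  exact (hc i).trans (by linarith [le_abs_self c])

end Pool.Agent.H.MP_b892c7_gt
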