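import Pool.Agent.H.MP_b892c7_gt.Lat

set_option autoImplicit false
set_option linter.unusedSectionVars false

namespace Pool.Agent.H.MP_b892c7_gt

open MeasureTheory Set

section unfolding

variable {d : Type*} [Fintype d] [DecidableEq d]

/-- The half open unit cube with corner `m`. -/
def cube (m : d → ℤ) : Set (d → ℝ) := {x | ∀ i, x i ∈ Ioc (m i : ℝ) (m i + 1)}

/-- The real vector of an integer vector. -/
def toR (m : d → ℤ) : d → ℝ := fun i => (m i : ℝ)

lemma cube_meas (m : d → ℤ) : MeasurableSet (cube m) :=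
  MeasurableSet.univ_pi' fun _ => measurableSet_Ioc

lemma cube_iUnion : ⋃ m : d → ℤ, cube m = univ := by
  refine eq_univ_of_forall fun x => ?_
  rw [mem_iUnion]
  refine ⟨fun i => ⌈x i⌉ - 1, fun i => ?_⟩
  rw [mem_Ioc]
  push_cast
  constructor
  · have := Int.ceil_lt_add_one (x i)
    linarith
  · have := Int.le_ceil (x i)
    linarith

lemma cube_disj : Pairwise (Function.onFun Disjoint (cube : (d → ℤ) → Set (d → ℝ))) := by
  intro m k hmk
  rw [Function.onFun, Set.disjoint_left]
  intro x hx hx'
  apply hmk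
  ext i
  have h1 := hx i
  have h2 := hx' i
  rw [mem_Ioc] at h1 h2
  have e1 : (m i : ℝ) < k i + 1 := by linarith
  have e2 : (k i : ℝ) < m i + 1 := by linarith
  have e1' : m i < k i + 1 := by exact_mod_cast e1
  have e2' : k i < m i + 1 := by exact_mod_cast e2
  omega

lemma cube_shift {F : Type*} [NormedAddCommGroup F] [NormedSpace ℝ F] (g : (d → ℝ) → F)
    (m : d → ℤ) :
    ∫ x in cube 0, g (x + toR m) = ∫ x in cube m, g x := by
  have hmp : MeasurePreserving (fun x : d → ℝ => x + toR m) volume volume :=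
    measurePreserving_add_right volume (toR m)
  have hemb : MeasurableEmbedding (fun x : d → ℝ => x + toR m) :=
    measurableEmbedding_addRight (toR m)
  rw [← hmp.setIntegral_preimage_emb hemb g (cube m)]
  congr 2
  ext x
  simp only [cube, toR, mem_ofPred_eq, mem_preimage, Pi.add_apply, mem_Ioc, Pi.zero_apply,
    Int.cast_zero]
  refine forall_congr' fun i => ?_
  constructor
  · rintro ⟨h1, h2⟩; constructor <;> linarith
  · rintro ⟨h1, h2⟩; constructor <;> linarith

/-- Tiling of an integral. -/
theorem unfold_hasSum {F : Type*} [NormedAddCommGroup F] [NormedSpace ℝ F] [CompleteSpace F]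
    (g : (d → ℝ) → F) (hg : Integrable g) :
    HasSum (fun m : d → ℤ => ∫ x in cube 0, g (x + toR m)) (∫ x, g x) := by
  have h := hasSum_integral_iUnion (μ := (volume : Measure (d → ℝ))) (f := g)
    (s := (cube : (d → ℤ) → Set (d → ℝ))) cube_meas cube_disj hg.integrableOn
  rw [cube_iUnion, setIntegral_univ] at h
  simp_rw [cube_shift]
  exact h

theorem unfold_swap (g : (d → ℝ) → ℂ) (hg : Integrable g) :
    ∫ x in cube (0 : d → ℤ), ∑' m : d → ℤ, g (x + toR m) = ∫ x, g x := by
  have h1 := unfold_hasSum g hg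
  have h2 := unfold_hasSum (fun x => ‖g x‖) hg.norm
  have hint : ∀ m : d → ℤ, Integrable (fun x => g (x + toR m)) :=
    fun m => hg.comp_add_right (toR m)
  have h3 := hasSum_integral_of_summable_integral_norm
    (μ := (volume : Measure (d → ℝ)).restrict (cube 0))
    (F := fun (m : d → ℤ) x => g (x + toR m))
    (fun m => (hint m).integrableOn) h2.summable
  exact h3.unique h1

end unfolding

section torus

variable {d : Type*} [Fintype d] [DecidableEq d]

/-- The covering map of the torus. -/
def tor (x : d → ℝ) : UnitAddTorus d := fun i => (x i : UnitAddCircle)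

lemma tor_quot : IsOpenQuotientMap (tor : (d → ℝ) → UnitAddTorus d) :=
  IsOpenQuotientMap.piMap (fun _ => QuotientAddGroup.isOpenQuotientMap_mk)

/-- The covering map as a continuous map. -/
def torC : C(d → ℝ, UnitAddTorus d) := ⟨tor, tor_quot.continuous⟩

lemma tor_eq_iff (x y : d → ℝ) (h : tor x = tor y) : ∃ m : d → ℤ, y = x + toR m := by
  have h1 : ∀ i, ∃ k : ℤ, y i = x i + k := by
    intro i
    have h2 : (x i : UnitAddCircle) = (y i : UnitAddCircle) := congrFun h i
    have h3 : ((y i - x i : ℝ) : UnitAddCircle) = 0 := by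
      rw [AddCircle.coe_sub, h2, sub_self]
    obtain ⟨k, hk⟩ := (AddCircle.coe_eq_zero_iff (1 : ℝ)).mp h3
    refine ⟨k, ?_⟩
    rw [zsmul_eq_mul, mul_one] at hk
    linarith
  choose m hm using h1
  exact ⟨m, funext hm⟩

/-- The pairing `∑ w_i x_i`. -/
def pr (w : d → ℤ) (x : d → ℝ) : ℝ := ∑ i, (w i : ℝ) * x i

lemma mFourier_tor (w : d → ℤ) (x : d → ℝ) :
    UnitAddTorus.mFourier w (tor x) = Complex.exp (2 * Real.pi * Complex.I * (pr w x : ℝ)) := by
  change ∏ i, fourier (w i) (x i : UnitAddCircle) = _
  have : ∀ i, fourier (w i) (x i : UnitAddCircle)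
      = Complex.exp (2 * Real.pi * Complex.I * ((w i : ℝ) * x i : ℝ)) := by
    intro i
    rw [fourier_coe_apply]
    congr 1
    push_cast
    ring
  simp_rw [this]
  rw [← Complex.exp_sum]
  congr 1
  unfold pr
  push_cast
  rw [Finset.mul_sum]

/-- Poisson summation in coordinates. -/
theorem poisson_coord (f : (d → ℝ) → ℂ) (F : C(d → ℝ, ℂ))
    (hF : ∀ x, F x = ∑' m : d → ℤ, f (x + toR m)) (hf : Integrable f)
    (a : (d → ℤ) → ℂ)
    (ha : ∀ w, a w = ∫ x, Complex.exp (-(2 * Real.pi * Complex.I * (pr w x : ℝ))) * f x)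
    (hs : Summable a) (x : d → ℝ) :
    HasSum (fun w => a w * Complex.exp (2 * Real.pi * Complex.I * (pr w x : ℝ))) (F x) := by
  have hper : ∀ (x : d → ℝ) (k : d → ℤ), F (x + toR k) = F x := by
    intro x k
    rw [hF, hF, ← (Equiv.addRight k).tsum_eq (fun m => f (x + toR m))]
    refine tsum_congr fun m => ?_
    congr 1
    ext i
    simp only [toR, Pi.add_apply, Equiv.coe_addRight, Int.cast_add]
    ring
  have hfac : Function.FactorsThrough F (torC : C(d → ℝ, UnitAddTorus d)) := by
    intro x y hxy
    obtain ⟨m, hm⟩ := tor_eq_iff x y hxy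
    rw [hm, hper]
  let G : C(UnitAddTorus d, ℂ) :=
    Topology.IsQuotientMap.lift (f := torC) tor_quot.isQuotientMap F hfac
  have hG : ∀ x : d → ℝ, G (tor x) = F x := by
    intro x
    have := Topology.IsQuotientMap.lift_comp (f := torC) tor_quot.isQuotientMap F hfac
    exact congrArg (fun q : C(d → ℝ, ℂ) => q x) this
  have hcoef : ∀ w, UnitAddTorus.mFourierCoeff G w = a w := by
    intro w
    rw [UnitAddTorus.mFourierCoeff_eq_integral G w (fun _ => 0), ha]
    have hset : {x : d → ℝ | ∀ i, x i ∈ Ioc ((fun _ => 0 : d → ℝ) i) ((fun _ => 0 : d → ℝ) i + 1)}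
        = cube (0 : d → ℤ) := by
      ext x
      simp [cube]
    rw [hset]
    have hgint : Integrable
        (fun x => Complex.exp (-(2 * Real.pi * Complex.I * (pr w x : ℝ))) * f x) := by
      refine hf.bdd_mul (c := 1) ?_ ?_
      · apply Continuous.aestronglyMeasurable
        unfold pr
        fun_prop
      · refine Filter.Eventually.of_forall fun x => ?_
        rw [Complex.norm_exp]
        simp
    rw [← unfold_swap _ hgint]
    refine setIntegral_congr_fun (cube_meas 0) fun x _ => ?_
    change UnitAddTorus.mFourier (-w) (tor x) • G (tor x) = _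
    rw [hG, hF, mFourier_tor, smul_eq_mul, ← tsum_mul_left]
    refine tsum_congr fun m => ?_
    congr 1
    have e1 : pr (-w) x = -pr w x := by
      unfold pr
      simp
    have e2 : pr w (x + toR m) = pr w x + (∑ i, w i * m i : ℤ) := by
      unfold pr toR
      push_cast
      rw [← Finset.sum_add_distrib]
      refine Finset.sum_congr rfl fun i _ => ?_
      simp only [Pi.add_apply]
      ring
    rw [e1, e2, Complex.exp_eq_exp_iff_exists_int]
    refine ⟨∑ i, w i * m i, ?_⟩
    push_cast
    ring
  have hsum : Summable (UnitAddTorus.mFourierCoeff G) := by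
    rw [show UnitAddTorus.mFourierCoeff G = a from funext hcoef]
    exact hs
  have h := UnitAddTorus.hasSum_mFourier_series_apply_of_summable hsum (tor x)
  rw [hG] at h
  refine h.congr_fun fun w => ?_
  rw [hcoef, mFourier_tor, smul_eq_mul]

end torus

end Pool.Agent.H.MP_b892c7_gt
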