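import Pool.Agent.H.MP_b892c7_gt.Poisson

set_option autoImplicit false
set_option linter.unusedSectionVars false

namespace Pool.Agent.H.MP_b892c7_gt

open MeasureTheory Set

variable {d : Type*} [Fintype d] [DecidableEq d]
variable {E : Type*} [NormedAddCommGroup E] [InnerProductSpace ℝ E]

lemma th_continuous {φ : (d → ℤ) →+ E} (h : GS φ) {a : ℝ} (ha : 0 < a) :
    Continuous (th φ a) := by
  rw [continuous_iff_continuousAt]
  intro x0
  have hon : ContinuousOn (th φ a) (Metric.ball 0 (‖x0‖ + 1)) := by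
    unfold th
    refine continuousOn_tsum (u := fun m => Real.exp (a * (‖x0‖ + 1) ^ 2) *
      Real.exp (-(a / 2) * ‖φ m‖ ^ 2)) (fun m => ?_)
      ((h (a / 2) (by positivity)).mul_left _) fun m x hx => ?_
    · exact Continuous.continuousOn (by fun_prop)
    · rw [Real.norm_eq_abs, abs_of_pos (Real.exp_pos _)]
      refine (term_le a ha x (φ m)).trans ?_
      apply mul_le_mul_of_nonneg_right _ (Real.exp_pos _).le
      apply Real.exp_le_exp.mpr
      have hx' : ‖x‖ ≤ ‖x0‖ + 1 := by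
        have := mem_ball_zero_iff.mp hx
        exact this.le
      have := pow_le_pow_left₀ (norm_nonneg x) hx' 2
      exact mul_le_mul_of_nonneg_left this ha.le
  exact hon.continuousAt (Metric.isOpen_ball.mem_nhds (by
    rw [mem_ball_zero_iff]; linarith))

variable [FiniteDimensional ℝ E] [MeasurableSpace E] [BorelSpace E]

lemma equivFunL_symm_toR (b : Module.Basis d ℝ E) (m : d → ℤ) :
    b.equivFunL.symm (toR m) = lat b m := by
  change b.equivFun.symm (toR m) = _
  rw [Module.Basis.equivFun_symm_apply, lat_apply]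
  rfl

lemma inner_dlat_symm (b : Module.Basis d ℝ E) (w : d → ℤ) (x : d → ℝ) :
    inner ℝ (dlat b w) (b.equivFunL.symm x) = pr w x := by
  rw [inner_dlat]
  unfold pr
  refine Finset.sum_congr rfl fun i _ => ?_
  congr 1
  change b.repr (b.equivFun.symm x) i = x i
  rw [← Module.Basis.equivFun_apply, LinearEquiv.apply_symm_apply]

/-- The Fourier integral of the Gaussian in coordinates. -/
theorem gauss_integral (b : Module.Basis d ℝ E) : ∃ K : ℝ, 0 < K ∧ ∀ T : ℝ, 0 < T →
    Integrable (fun x : d → ℝ =>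
      (Real.exp (-(Real.pi / T) * ‖b.equivFunL.symm x‖ ^ 2) : ℂ)) ∧
    ∀ w : d → ℤ, ∫ x : d → ℝ, Complex.exp (-(2 * Real.pi * Complex.I * (pr w x : ℝ))) *
      (Real.exp (-(Real.pi / T) * ‖b.equivFunL.symm x‖ ^ 2) : ℂ) =
      ((K * T ^ (Module.finrank ℝ E / 2 : ℝ) *
        Real.exp (-(Real.pi * T) * ‖dlat b w‖ ^ 2) : ℝ) : ℂ) := by
  let μ' : Measure E := Measure.map b.equivFunL.symm (volume : Measure (d → ℝ))
  have : μ'.IsAddHaarMeasure := b.equivFunL.symm.isAddHaarMeasure_map _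
  let c := Measure.addHaarScalarFactor μ' (volume : Measure E)
  have hc : 0 < c := Measure.addHaarScalarFactor_pos_of_isAddHaarMeasure _ _
  have hμ : μ' = c • (volume : Measure E) := Measure.isAddLeftInvariant_eq_smul _ _
  have hemb : MeasurableEmbedding (b.equivFunL.symm : (d → ℝ) → E) :=
    b.equivFunL.symm.toHomeomorph.measurableEmbedding
  refine ⟨c, by exact_mod_cast hc, fun T hT => ?_⟩
  have hb : 0 < ((Real.pi / T : ℝ) : ℂ).re := by
    rw [Complex.ofReal_re]; exact div_pos Real.pi_pos hT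
  constructor
  · have h1 : Integrable (fun v : E =>
        Complex.exp (-((Real.pi / T : ℝ) : ℂ) * ‖v‖ ^ 2 + 0 * (inner ℝ (0 : E) v : ℝ)))
        (volume : Measure E) :=
      GaussianFourier.integrable_cexp_neg_mul_sq_norm_add hb 0 0
    have h2 : Integrable (fun v : E =>
        Complex.exp (-((Real.pi / T : ℝ) : ℂ) * ‖v‖ ^ 2 + 0 * (inner ℝ (0 : E) v : ℝ))) μ' := by
      rw [hμ]
      exact h1.smul_measure_nnreal
    have h3 := hemb.integrable_map_iff.mp h2
    refine h3.congr (Filter.Eventually.of_forall fun x => ?_)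
    simp only [Function.comp]
    push_cast
    simp
  · intro w
    have h1 := GaussianFourier.integral_cexp_neg_mul_sq_norm_add hb
      (-(2 * Real.pi * Complex.I)) (dlat b w)
    have h2 : ∫ v : E, Complex.exp (-((Real.pi / T : ℝ) : ℂ) * ‖v‖ ^ 2 +
        (-(2 * Real.pi * Complex.I)) * (inner ℝ (dlat b w) v : ℝ)) ∂μ'
        = c • ∫ v : E, Complex.exp (-((Real.pi / T : ℝ) : ℂ) * ‖v‖ ^ 2 +
        (-(2 * Real.pi * Complex.I)) * (inner ℝ (dlat b w) v : ℝ)) := by
      rw [hμ, integral_smul_nnreal_measure]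
    rw [hemb.integral_map] at h2
    have h3 : ∀ x : d → ℝ, Complex.exp (-(2 * Real.pi * Complex.I * (pr w x : ℝ))) *
      (Real.exp (-(Real.pi / T) * ‖b.equivFunL.symm x‖ ^ 2) : ℂ)
      = Complex.exp (-((Real.pi / T : ℝ) : ℂ) * ‖b.equivFunL.symm x‖ ^ 2 +
        (-(2 * Real.pi * Complex.I)) * (inner ℝ (dlat b w) (b.equivFunL.symm x) : ℝ)) := by
      intro x
      rw [inner_dlat_symm, Complex.ofReal_exp, ← Complex.exp_add]
      congr 1
      push_cast
      ring
    simp_rw [h3]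
    rw [h2, h1]
    have e1 : (Real.pi : ℂ) / ((Real.pi / T : ℝ) : ℂ) = (T : ℂ) := by
      push_cast
      have : (Real.pi : ℂ) ≠ 0 := by exact_mod_cast Real.pi_ne_zero
      have hT' : (T : ℂ) ≠ 0 := by exact_mod_cast hT.ne'
      field_simp
    rw [e1]
    have e2 : (-(2 * (Real.pi : ℂ) * Complex.I)) ^ 2 * (‖dlat b w‖ : ℂ) ^ 2
        / (4 * ((Real.pi / T : ℝ) : ℂ)) = ((-(Real.pi * T) * ‖dlat b w‖ ^ 2 : ℝ) : ℂ) := by
      have : (Real.pi : ℂ) ≠ 0 := by exact_mod_cast Real.pi_ne_zero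
      have hT' : (T : ℂ) ≠ 0 := by exact_mod_cast hT.ne'
      push_cast
      have hI : Complex.I ^ 2 = -1 := Complex.I_sq
      field_simp
      ring_nf
      rw [hI]
      ring
    rw [e2, ← Complex.ofReal_exp]
    have e3 : (T : ℂ) ^ ((Module.finrank ℝ E : ℂ) / 2)
        = ((T ^ (Module.finrank ℝ E / 2 : ℝ) : ℝ) : ℂ) := by
      rw [Complex.ofReal_cpow hT.le]
      push_cast
      rfl
    rw [e3]
    rw [NNReal.smul_def, Complex.real_smul]
    push_cast
    ring

/-- Poisson summation for the Gaussian of a lattice. -/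
theorem poisson (b : Module.Basis d ℝ E) : ∃ K : ℝ, 0 < K ∧ ∀ T : ℝ, 0 < T → ∀ x : E,
    th (lat b) (Real.pi / T) x = K * T ^ (Module.finrank ℝ E / 2 : ℝ) *
      ∑' w, Real.exp (-(Real.pi * T) * ‖dlat b w‖ ^ 2) *
        Real.cos (2 * Real.pi * inner ℝ (dlat b w) x) := by
  obtain ⟨K, hK, hmain⟩ := gauss_integral b
  refine ⟨K, hK, fun T hT y => ?_⟩
  obtain ⟨hint, hval⟩ := hmain T hT
  have hpT : 0 < Real.pi / T := div_pos Real.pi_pos hT
  have hG := GS_lat b
  let F : C(d → ℝ, ℂ) := ⟨fun x => (th (lat b) (Real.pi / T) (b.equivFunL.symm x) : ℂ), by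
    have h1 := th_continuous hG hpT
    have h2 : Continuous (b.equivFunL.symm : (d → ℝ) → E) := b.equivFunL.symm.continuous
    exact Complex.continuous_ofReal.comp (h1.comp h2)⟩
  have hF : ∀ x, F x = ∑' m : d → ℤ,
      (Real.exp (-(Real.pi / T) * ‖b.equivFunL.symm (x + toR m)‖ ^ 2) : ℂ) := by
    intro x
    change ((th (lat b) (Real.pi / T) (b.equivFunL.symm x) : ℝ) : ℂ) = _
    rw [← th_neg]
    unfold th
    rw [Complex.ofReal_tsum]
    refine tsum_congr fun m => ?_
    rw [map_add, equivFunL_symm_toR, ← norm_neg (-b.equivFunL.symm x - lat b m)]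
    congr 4
    congr 1
    abel
  have hsum : Summable fun w : d → ℤ => ((K * T ^ (Module.finrank ℝ E / 2 : ℝ) *
        Real.exp (-(Real.pi * T) * ‖dlat b w‖ ^ 2) : ℝ) : ℂ) := by
    have h1 := (GS_dlat b (Real.pi * T) (by positivity)).mul_left
      (K * T ^ (Module.finrank ℝ E / 2 : ℝ))
    exact_mod_cast h1
  have h := poisson_coord _ F hF hint _ (fun w => (hval w).symm) hsum (b.equivFunL y)
  have hre := Complex.hasSum_re h
  have hFy : (F (b.equivFunL y)).re = th (lat b) (Real.pi / T) y := by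
    change ((th (lat b) (Real.pi / T) (b.equivFunL.symm (b.equivFunL y)) : ℝ) : ℂ).re = _
    rw [ContinuousLinearEquiv.symm_apply_apply, Complex.ofReal_re]
  rw [hFy] at hre
  rw [← hre.tsum_eq, ← tsum_mul_left]
  refine tsum_congr fun w => ?_
  rw [Complex.re_ofReal_mul]
  have e : pr w (b.equivFunL y) = inner ℝ (dlat b w) y := by
    rw [← inner_dlat_symm b w, ContinuousLinearEquiv.symm_apply_apply]
  rw [e]
  have e2 : (2 * (Real.pi : ℂ) * Complex.I * ((inner ℝ (dlat b w) y : ℝ) : ℂ))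
      = ((2 * Real.pi * inner ℝ (dlat b w) y : ℝ) : ℂ) * Complex.I := by
    push_cast; ring
  rw [e2, Complex.exp_ofReal_mul_I_re]
  ring

end Pool.Agent.H.MP_b892c7_gt
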