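import Pool.Agent.H.MP_b892c7_gt.PoissonG
import Pool.Agent.H.MP_b892c7_gt.DualCore
import Pool.Agent.H.MP_b892c7_gt.Assembly

set_option autoImplicit false
set_option linter.unusedSectionVars false

namespace Pool.Agent.H.MP_b892c7_gt

open Real

variable {d : Type*} [Fintype d] [DecidableEq d]
variable {E : Type*} [NormedAddCommGroup E] [InnerProductSpace ℝ E]
variable [FiniteDimensional ℝ E] [MeasurableSpace E] [BorelSpace E]

/-- `e_T(x)`. -/
noncomputable def eT (b : Module.Basis d ℝ E) (T : ℝ) (x : E) : ℝ := ee (dlat b) (π * T) x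

/-- `log ρ_T(x)`. -/
noncomputable def lT (b : Module.Basis d ℝ E) (T : ℝ) (x : E) : ℝ := log (th (lat b) (π / T) x)

/-- `g_T(x) = -log (ρ_T(x)/ρ_T(0))`. -/
noncomputable def gT (b : Module.Basis d ℝ E) (T : ℝ) (x : E) : ℝ := lT b T 0 - lT b T x

/-- `J(T)`. -/
noncomputable def jT (b : Module.Basis d ℝ E) (T : ℝ) : ℝ :=
  lT b (T / 2) 0 - 2 * lT b T 0 + lT b (2 * T) 0

lemma NN_zero (φ : (d → ℤ) →+ E) (s : ℝ) : NN φ s 0 = 0 := by
  unfold NN hh
  simp

theorem poisson' (b : Module.Basis d ℝ E) : ∃ K : ℝ, 0 < K ∧ ∀ T : ℝ, 0 < T → ∀ x : E,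
    th (lat b) (π / T) x = K * T ^ (Module.finrank ℝ E / 2 : ℝ) *
      (th (dlat b) (π * T) 0 * (1 - eT b T x)) := by
  obtain ⟨K, hK, h⟩ := poisson b
  refine ⟨K, hK, fun T hT x => ?_⟩
  have hs : 0 < π * T := by positivity
  rw [h T hT x]
  congr 1
  rw [cos_tsum (GS_dlat b) hs, NN_eq (GS_dlat b) hs]
  unfold eT
  ring

lemma eT_zero (b : Module.Basis d ℝ E) (T : ℝ) : eT b T 0 = 0 := by
  unfold eT ee
  rw [NN_zero, zero_div]

lemma eT_nonneg (b : Module.Basis d ℝ E) {T : ℝ} (hT : 0 < T) (x : E) : 0 ≤ eT b T x :=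
  ee_nonneg (GS_dlat b) (by positivity) x

variable (b : Module.Basis d ℝ E)

lemma thT_pos {T : ℝ} (hT : 0 < T) (x : E) : 0 < th (lat b) (π / T) x :=
  th_pos (GS_lat b) (div_pos pi_pos hT) x

lemma th_eq_eT {T : ℝ} (hT : 0 < T) (x : E) :
    th (lat b) (π / T) x = (1 - eT b T x) * th (lat b) (π / T) 0 := by
  obtain ⟨K, hK, h⟩ := poisson' b
  rw [h T hT x, h T hT 0, eT_zero]
  ring

lemma one_sub_eT_pos {T : ℝ} (hT : 0 < T) (x : E) : 0 < 1 - eT b T x := by
  have h1 := thT_pos b hT x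
  have h0 := thT_pos b hT 0
  rw [th_eq_eT b hT] at h1
  exact (pos_iff_pos_of_mul_pos h1).mpr h0

lemma th_le_zero {T : ℝ} (hT : 0 < T) (x : E) :
    th (lat b) (π / T) x ≤ th (lat b) (π / T) 0 := by
  rw [th_eq_eT b hT]
  have h0 := thT_pos b hT 0
  have := eT_nonneg b hT x
  nlinarith

lemma gT_eq {T : ℝ} (hT : 0 < T) (x : E) : gT b T x = -log (1 - eT b T x) := by
  unfold gT lT
  rw [th_eq_eT b hT x, log_mul (one_sub_eT_pos b hT x).ne' (thT_pos b hT 0).ne']
  ring

lemma gT_nonneg {T : ℝ} (hT : 0 < T) (x : E) : 0 ≤ gT b T x := by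
  unfold gT lT
  have := log_le_log (thT_pos b hT x) (th_le_zero b hT x)
  linarith

lemma gT_le {T : ℝ} (hT : 0 < T) (x : E) (h : eT b T x ≤ 1 / 2) : gT b T x ≤ 2 * eT b T x := by
  rw [gT_eq b hT, ← log_inv]
  have h0 := one_sub_eT_pos b hT x
  have h1 := log_le_sub_one_of_pos (inv_pos.mpr h0)
  refine h1.trans ?_
  have he := eT_nonneg b hT x
  rw [inv_eq_one_div, div_sub_one h0.ne', div_le_iff₀ h0]
  nlinarith

lemma two_gT_le {T : ℝ} (hT : 0 < T) (x : E) : 2 * gT b (2 * T) x ≤ gT b T x := by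
  have h2T : 0 < 2 * T := by positivity
  have ha : 0 < π / (2 * T) := by positivity
  have h := mono_scale (GS_lat b) ha x
  rw [show 2 * (π / (2 * T)) = π / T by field_simp] at h
  have p1 := thT_pos b hT x
  have p2 := thT_pos b hT 0
  have p3 := thT_pos b h2T x
  have p4 := thT_pos b h2T 0
  have h2 := log_le_log (by positivity) h
  rw [log_mul p1.ne' (by positivity), log_mul (by positivity) p2.ne', log_pow, log_pow] at h2
  unfold gT lT
  push_cast at h2
  linarith

lemma jT_nonneg {T : ℝ} (hT : 0 < T) : 0 ≤ jT b T := by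
  have h2T : 0 < 2 * T := by positivity
  have hT2 : 0 < T / 2 := by positivity
  have ha : 0 < π / T := by positivity
  have h := J_nonneg (GS_lat b) ha
  rw [show 2 * (π / T) = π / (T / 2) by field_simp, show π / T / 2 = π / (2 * T) by
    field_simp] at h
  have p1 := thT_pos b hT 0
  have p2 := thT_pos b hT2 0
  have p3 := thT_pos b h2T 0
  have h2 := log_le_log (by positivity) h
  rw [log_mul p2.ne' p3.ne', log_pow] at h2
  unfold jT lT
  push_cast at h2
  linarith

lemma growth {T : ℝ} (hT : 0 < T) (x : E) :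
    gT b (T / 2) x - 2 * gT b T x ≤ gT b T x - 2 * gT b (2 * T) x + 2 * jT b T := by
  have h2T : 0 < 2 * T := by positivity
  have hT2 : 0 < T / 2 := by positivity
  have ha : 0 < π / T := by positivity
  have h := scaleE (GS_lat b) ha x
  rw [show 2 * (π / T) = π / (T / 2) by field_simp, show π / T / 2 = π / (2 * T) by
    field_simp] at h
  have p1 := thT_pos b hT 0
  have p2 := thT_pos b hT2 0
  have p3 := thT_pos b h2T 0
  have q1 := thT_pos b hT x
  have q2 := thT_pos b hT2 x
  have q3 := thT_pos b h2T x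
  have h2 := log_le_log (by positivity) h
  rw [log_mul (by positivity) p1.ne', log_mul (by positivity) p2.ne',
    log_mul (by positivity) q2.ne', log_pow, log_pow] at h2
  unfold jT gT lT
  push_cast at h2
  linarith

lemma eT_anti {T : ℝ} (hT : 0 < T) (x : E) : eT b (2 * T) x ≤ eT b T x := by
  have h2T : 0 < 2 * T := by positivity
  have h1 := two_gT_le b hT x
  have h2 := gT_nonneg b h2T x
  have h3 : gT b (2 * T) x ≤ gT b T x := by linarith
  rw [gT_eq b h2T, gT_eq b hT, neg_le_neg_iff] at h3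
  have := (log_le_log_iff (one_sub_eT_pos b hT x) (one_sub_eT_pos b h2T x)).mp h3
  linarith

lemma eT_le {T : ℝ} (hT : 0 < T) (x : E) (m : d → ℤ) :
    T * eT b T x ≤ π * ‖x - lat b m‖ ^ 2 := by
  have ha : 0 < π / T := by positivity
  have h := gauss_lower' (GS_lat b) ha x m
  rw [th_eq_eT b hT x] at h
  have h1 := le_of_mul_le_mul_right h (thT_pos b hT 0)
  have h2 := add_one_le_exp (-(π / T) * ‖x - lat b m‖ ^ 2)
  have h3 : eT b T x ≤ (π / T) * ‖x - lat b m‖ ^ 2 := by linarith
  calc T * eT b T x ≤ T * ((π / T) * ‖x - lat b m‖ ^ 2) :=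
        mul_le_mul_of_nonneg_left h3 hT.le
    _ = π * ‖x - lat b m‖ ^ 2 := by field_simp

lemma lT_mono {T T' : ℝ} (hT : 0 < T) (h : T ≤ T') : lT b T 0 ≤ lT b T' 0 := by
  have hT' : 0 < T' := hT.trans_le h
  unfold lT
  apply log_le_log (thT_pos b hT 0)
  exact th_anti (GS_lat b) (by positivity) (div_le_div_of_nonneg_left pi_pos.le hT h) 0

lemma lT_count {T : ℝ} (hT : 0 < T) :
    lT b (4 * T) 0 ≤ Fintype.card d * log 2 + lT b T 0 := by
  have h4T : 0 < 4 * T := by positivity
  have ha : 0 < π / (4 * T) := by positivity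
  have h := count_le (GS_lat b) ha
  rw [show 4 * (π / (4 * T)) = π / T by field_simp] at h
  have p1 := thT_pos b hT 0
  have p2 := thT_pos b h4T 0
  have h2 := log_le_log p2 h
  rw [log_mul (by positivity) p1.ne', log_pow] at h2
  exact h2

/-- The gap of the dual kernel at scale `S`. -/
noncomputable def dl (b : Module.Basis d ℝ E) (S : ℝ) : ℝ :=
  DD (dlat b) (2 * (π * S)) / AA (dlat b) (2 * (π * S))

lemma dl_nonneg {S : ℝ} (hS : 0 < S) : 0 ≤ dl b S :=
  div_nonneg (DD_nonneg (GS_dlat b) (by positivity)) (AA_pos (GS_dlat b) (by positivity)).le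

lemma dl_le {S : ℝ} (hS : 0 < S) : dl b S ≤ jT b S := by
  have hG := GS_dlat b
  have hs : 0 < π * S / 2 := by positivity
  have h2S : 0 < 2 * S := by positivity
  have hS2 : 0 < S / 2 := by positivity
  have e1 := AA_eq hG hs
  have e2 := AD_eq hG hs
  rw [show 4 * (π * S / 2) = 2 * (π * S) by ring] at e1 e2
  rw [show 2 * (π * S / 2) = π * S by ring] at e2
  have hA : 0 < AA (dlat b) (2 * (π * S)) := AA_pos hG (by positivity)
  have z1 : 0 < th (dlat b) (π * S) 0 := th_pos hG (by positivity) 0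
  have z2 : 0 < th (dlat b) (2 * (π * S)) 0 := th_pos hG (by positivity) 0
  have zh : 0 < th (dlat b) (π * S / 2) 0 := th_pos hG (by positivity) 0
  -- 1 - δ
  have hδ : 1 - dl b S = th (dlat b) (π * S) 0 ^ 2 /
      (th (dlat b) (π * S / 2) 0 * th (dlat b) (2 * (π * S)) 0) := by
    unfold dl
    rw [one_sub_div hA.ne', ← e1, ← e2]
    clear e1 e2
    generalize AA (dlat b) (2 * (π * S)) = A at *
    generalize DD (dlat b) (2 * (π * S)) = D at *
    generalize th (dlat b) (2 * (π * S)) 0 = z at *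
    field_simp
  obtain ⟨K, hK, hP⟩ := poisson' b
  have hJ : jT b S = -log (1 - dl b S) := by
    unfold jT lT
    rw [hP _ hS2 0, hP _ hS 0, hP _ h2S 0, eT_zero, eT_zero, eT_zero, hδ]
    rw [show π * (S / 2) = π * S / 2 by ring, show π * (2 * S) = 2 * (π * S) by ring]
    simp only [sub_zero, mul_one]
    set p : ℝ := (Module.finrank ℝ E / 2 : ℝ)
    have r1 : 0 < S ^ p := rpow_pos_of_pos hS _
    have r2 : 0 < (2 * S) ^ p := rpow_pos_of_pos h2S _
    have rh : 0 < (S / 2) ^ p := rpow_pos_of_pos hS2 _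
    have hr : (S / 2) ^ p * (2 * S) ^ p = S ^ p * S ^ p := by
      rw [← mul_rpow hS2.le h2S.le, ← mul_rpow hS.le hS.le]
      congr 1
      ring
    have hlr : log ((S / 2) ^ p) + log ((2 * S) ^ p) = 2 * log (S ^ p) := by
      rw [← log_mul rh.ne' r2.ne', hr, log_mul r1.ne' r1.ne']
      ring
    rw [log_mul (by positivity) zh.ne', log_mul (by positivity) z1.ne',
      log_mul (by positivity) z2.ne', log_mul hK.ne' rh.ne', log_mul hK.ne' r1.ne',
      log_mul hK.ne' r2.ne', log_div (by positivity) (by positivity), log_pow,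
      log_mul zh.ne' z2.ne']
    push_cast
    linarith
  have hpos : 0 < 1 - dl b S := by
    rw [hδ]; positivity
  have := log_le_sub_one_of_pos hpos
  rw [hJ]
  linarith

/-- The core inequality. -/
theorem core {T : ℝ} (hT : 0 < T) (x : E) (he : eT b T x ≤ 1 / 2) :
    gT b T x - 2 * gT b (2 * T) x ≤ 64 * (jT b T + jT b (2 * T)) * eT b (T / 2) x := by
  have h2T : 0 < 2 * T := by positivity
  have hT2 : 0 < T / 2 := by positivity
  have hG := GS_dlat b
  have j1 := dl_le b hT
  have j2 := dl_le b h2T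
  have n1 := dl_nonneg b hT
  have n2 := dl_nonneg b h2T
  have m1 := eT_nonneg b hT x
  have m2 := eT_nonneg b hT2 x
  have mono : eT b T x ≤ eT b (T / 2) x := by
    have := eT_anti b hT2 x
    rwa [show 2 * (T / 2) = T by ring] at this
  by_cases hs : dl b T ≤ 1 / 32 ∧ dl b (2 * T) ≤ 1 / 32
  · obtain ⟨h1, h2⟩ := hs
    have hA1 : 0 < AA (dlat b) (2 * (π * T)) := AA_pos hG (by positivity)
    have hA2 : 0 < AA (dlat b) (2 * (π * (2 * T))) := AA_pos hG (by positivity)
    have hD' : 32 * DD (dlat b) (2 * (π * T)) ≤ AA (dlat b) (2 * (π * T)) := by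
      unfold dl at h1
      rw [div_le_iff₀ hA1] at h1
      linarith
    have hD : 32 * DD (dlat b) (4 * (π * T)) ≤ AA (dlat b) (4 * (π * T)) := by
      unfold dl at h2
      rw [div_le_iff₀ hA2] at h2
      rw [show 4 * (π * T) = 2 * (π * (2 * T)) by ring]
      linarith
    have hc := dual_core hG (show 0 < π * T by positivity) x hD hD'
    rw [show 4 * (π * T) = 2 * (π * (2 * T)) by ring] at hc
    have e1 : ee (dlat b) (2 * (π * T)) x = eT b (2 * T) x := by
      unfold eT; congr 1; ring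
    have e2 : ee (dlat b) (π * T / 2) x = eT b (T / 2) x := by
      unfold eT; congr 1; ring
    have e3 : ee (dlat b) (π * T) x = eT b T x := rfl
    have e4 : DD (dlat b) (2 * (π * T)) / AA (dlat b) (2 * (π * T)) = dl b T := rfl
    have e5 : DD (dlat b) (2 * (π * (2 * T))) / AA (dlat b) (2 * (π * (2 * T)))
      = dl b (2 * T) := rfl
    rw [e1, e2, e3, e4, e5] at hc
    have p1 := one_sub_eT_pos b hT x
    have p2 := one_sub_eT_pos b h2T x
    have hlog : gT b T x - 2 * gT b (2 * T) x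
        = log ((1 - eT b (2 * T) x) ^ 2 / (1 - eT b T x)) := by
      rw [gT_eq b hT, gT_eq b h2T, log_div (by positivity) p1.ne', log_pow]
      push_cast
      ring
    rw [hlog]
    have hl := log_le_sub_one_of_pos
      (show 0 < (1 - eT b (2 * T) x) ^ 2 / (1 - eT b T x) by positivity)
    refine hl.trans ?_
    rw [div_sub_one p1.ne', div_le_iff₀ p1]
    have q1 : 9 * dl b T * eT b (T / 2) x + 9 * dl b (2 * T) * eT b T x ≤
        9 * ((jT b T + jT b (2 * T)) * eT b (T / 2) x) := by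
      have a1 := mul_le_mul_of_nonneg_right j1 m2
      have a2 : dl b (2 * T) * eT b T x ≤ jT b (2 * T) * eT b (T / 2) x :=
        mul_le_mul j2 mono m1 (n2.trans j2)
      nlinarith
    have q2 : 0 ≤ (jT b T + jT b (2 * T)) * eT b (T / 2) x :=
      mul_nonneg (by linarith) m2
    nlinarith
  · have h1 : 1 / 32 ≤ jT b T + jT b (2 * T) := by
      by_contra hcon
      push Not at hcon
      apply hs
      constructor <;> linarith
    have h2 := gT_le b hT x he
    have h3 := gT_nonneg b h2T x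
    have h4 : (1 / 32) * eT b T x ≤ (jT b T + jT b (2 * T)) * eT b (T / 2) x :=
      mul_le_mul h1 mono m1 (by linarith)
    linarith

/-- All the inequalities of the scale recursion. -/
theorem scales {T0 : ℝ} (hT0 : 0 < T0) (x : E) :
    Scales 64 (fun k => T0 * 2 ^ k) (fun k => eT b (T0 * 2 ^ k) x)
      (fun k => gT b (T0 * 2 ^ k) x) (fun k => jT b (T0 * 2 ^ k)) where
  Tpos k := by positivity
  Tsucc k := by ring
  e_nonneg k := eT_nonneg b (by positivity) x
  g_nonneg k := gT_nonneg b (by positivity) x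
  J_nonneg k := jT_nonneg b (by positivity)
  h_nonneg k := by
    have := two_gT_le b (show 0 < T0 * 2 ^ k by positivity) x
    rwa [show 2 * (T0 * 2 ^ k) = T0 * 2 ^ (k + 1) by ring] at this
  e_anti k := by
    have := eT_anti b (show 0 < T0 * 2 ^ k by positivity) x
    rwa [show 2 * (T0 * 2 ^ k) = T0 * 2 ^ (k + 1) by ring] at this
  g_le k h := gT_le b (by positivity) x h
  growth k := by
    have := growth b (show 0 < T0 * 2 ^ (k + 2) by positivity) x
    rwa [show T0 * 2 ^ (k + 2) / 2 = T0 * 2 ^ (k + 1) by ring,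
      show 2 * (T0 * 2 ^ (k + 2)) = T0 * 2 ^ (k + 3) by ring] at this
  core k h := by
    have := core b (show 0 < T0 * 2 ^ (k + 1) by positivity) x h
    rwa [show T0 * 2 ^ (k + 1) / 2 = T0 * 2 ^ k by ring,
      show 2 * (T0 * 2 ^ (k + 1)) = T0 * 2 ^ (k + 2) by ring] at this

end Pool.Agent.H.MP_b892c7_gt
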